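import Mathlib

section

section

/-!
# MP_afa64c_lc: the curve v^2 = 1 - 2 u^4 over the rationals, as an abelian group

The addition law of Euler is complete on rational points, since 1 + 2 u1^2 u2^2 > 0.
-/

set_option autoImplicit false

namespace BQ60

/-- rational points of `v ^ 2 = 1 - 2 * u ^ 4` -/
@[ext] structure Pt where
  u : ℚ
  v : ℚ
  h : v ^ 2 = 1 - 2 * u ^ 4

namespace Pt

lemma D_pos (P Q : Pt) : 0 < 1 + 2 * P.u ^ 2 * Q.u ^ 2 := by positivity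

instance : Zero Pt := ⟨⟨0, 1, by norm_num⟩⟩

instance : Neg Pt := ⟨fun P => ⟨-P.u, P.v, by have := P.h; rw [this]; ring⟩⟩

/-- the addition law of Euler -/
instance : Add Pt := ⟨fun P Q =>
  ⟨(P.u * Q.v + Q.u * P.v) / (1 + 2 * P.u ^ 2 * Q.u ^ 2),
   ((1 - 2 * P.u ^ 2 * Q.u ^ 2) * (P.v * Q.v) - 4 * P.u * Q.u * (P.u ^ 2 + Q.u ^ 2)) /
      (1 + 2 * P.u ^ 2 * Q.u ^ 2) ^ 2, by
    have hD := (D_pos P Q).ne'
    have h1 := P.h
    have h2 := Q.h
    have h1' : P.v ^ 2 - (1 - 2 * P.u ^ 4) = 0 := by rw [h1]; ring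
    have h2' : Q.v ^ 2 - (1 - 2 * Q.u ^ 4) = 0 := by rw [h2]; ring
    field_simp
    linear_combination (Q.v^2 +2*Q.u^4 +2*P.v^2*Q.u^4 +8*P.u*P.v*Q.u^3*Q.v +8*P.u^2*Q.u^2*Q.v^2
      -4*P.u^4*Q.u^4 +4*P.u^4*Q.u^4*Q.v^2) * h1' + (1 +8*P.u^2*Q.u^2 +8*P.u^3*P.v*Q.u*Q.v
      +2*P.u^4*Q.v^2 -16*P.u^6*Q.u^2 -8*P.u^8*Q.u^4) * h2'⟩⟩

@[simp] lemma zero_u : (0 : Pt).u = 0 := rfl
@[simp] lemma zero_v : (0 : Pt).v = 1 := rfl
@[simp] lemma neg_u (P : Pt) : (-P).u = -P.u := rfl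
@[simp] lemma neg_v (P : Pt) : (-P).v = P.v := rfl

lemma add_u (P Q : Pt) :
    (P + Q).u = (P.u * Q.v + Q.u * P.v) / (1 + 2 * P.u ^ 2 * Q.u ^ 2) := rfl

lemma add_v (P Q : Pt) :
    (P + Q).v = ((1 - 2 * P.u ^ 2 * Q.u ^ 2) * (P.v * Q.v) -
      4 * P.u * Q.u * (P.u ^ 2 + Q.u ^ 2)) / (1 + 2 * P.u ^ 2 * Q.u ^ 2) ^ 2 := rfl

protected lemma add_comm' (P Q : Pt) : P + Q = Q + P := by
  ext
  · rw [add_u, add_u]; congr 1 <;> ring
  · rw [add_v, add_v]; congr 1 <;> ring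

protected lemma zero_add' (P : Pt) : 0 + P = P := by
  ext
  · rw [add_u]; simp
  · rw [add_v]; simp

protected lemma neg_add' (P : Pt) : -P + P = 0 := by
  ext
  · rw [add_u]; simp
  · have hP : P.v ^ 2 = 1 - 2 * P.u ^ 4 := P.h
    have hD : (1 + 2 * P.u ^ 2 * P.u ^ 2 : ℚ) ≠ 0 := by positivity
    rw [add_v]
    simp only [neg_u, neg_v, zero_v, neg_sq]
    rw [div_eq_one_iff_eq (pow_ne_zero 2 hD)]
    linear_combination (1 - 2 * P.u ^ 2 * P.u ^ 2) * hP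

/-- associativity of the first coordinate -/
lemma assoc_u (P Q R : Pt) : ((P + Q) + R).u = (P + (Q + R)).u := by
  have h1 : P.v ^ 2 - (1 - 2 * P.u ^ 4) = 0 := by rw [P.h]; ring
  have h2 : Q.v ^ 2 - (1 - 2 * Q.u ^ 4) = 0 := by rw [Q.h]; ring
  have h3 : R.v ^ 2 - (1 - 2 * R.u ^ 4) = 0 := by rw [R.h]; ring
  have e12 := D_pos P Q
  have e23 := D_pos Q R
  have e1 := D_pos (P + Q) R
  have e2 := D_pos P (Q + R)
  rw [add_u] at e1 e2
  rw [add_u (P + Q) R, add_u P (Q + R), add_u P Q, add_u Q R, add_v P Q, add_v Q R]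
  generalize P.u = a at *
  generalize P.v = x at *
  generalize Q.u = b at *
  generalize Q.v = y at *
  generalize R.u = c at *
  generalize R.v = z at *
  set D := 1 + 2 * a ^ 2 * b ^ 2 with hD
  set E := 1 + 2 * b ^ 2 * c ^ 2 with hE
  have hD0 : D ≠ 0 := e12.ne'
  have hE0 : E ≠ 0 := e23.ne'
  have k1 : 1 + 2 * ((a * y + b * x) / D) ^ 2 * c ^ 2 =
      (D ^ 2 + 2 * (a * y + b * x) ^ 2 * c ^ 2) / D ^ 2 := by
    field_simp
  have k2 : 1 + 2 * a ^ 2 * ((b * z + c * y) / E) ^ 2 =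
      (E ^ 2 + 2 * (b * z + c * y) ^ 2 * a ^ 2) / E ^ 2 := by
    field_simp
  have p1 : 0 < D ^ 2 + 2 * (a * y + b * x) ^ 2 * c ^ 2 := by positivity
  have p2 : 0 < E ^ 2 + 2 * (b * z + c * y) ^ 2 * a ^ 2 := by positivity
  rw [k1, k2]
  have l1 : ((a * y + b * x) / D * z + c * (((1 - 2 * a ^ 2 * b ^ 2) * (x * y) -
      4 * a * b * (a ^ 2 + b ^ 2)) / D ^ 2)) / ((D ^ 2 + 2 * (a * y + b * x) ^ 2 * c ^ 2) / D ^ 2)
      = ((a * y + b * x) * z * D + c * ((1 - 2 * a ^ 2 * b ^ 2) * (x * y) -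
      4 * a * b * (a ^ 2 + b ^ 2))) / (D ^ 2 + 2 * (a * y + b * x) ^ 2 * c ^ 2) := by
    field_simp
  have l2 : (a * (((1 - 2 * b ^ 2 * c ^ 2) * (y * z) - 4 * b * c * (b ^ 2 + c ^ 2)) / E ^ 2) +
      (b * z + c * y) / E * x) / ((E ^ 2 + 2 * (b * z + c * y) ^ 2 * a ^ 2) / E ^ 2)
      = ((b * z + c * y) * x * E + a * ((1 - 2 * b ^ 2 * c ^ 2) * (y * z) -
      4 * b * c * (b ^ 2 + c ^ 2))) / (E ^ 2 + 2 * (b * z + c * y) ^ 2 * a ^ 2) := by
    field_simp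
    ring
  rw [l1, l2, div_eq_div_iff p1.ne' p2.ne']
  rw [hD, hE]
  linear_combination (-2*x*b^2*y*c^3 -2*x*b^3*c^2*z -4*x*b^4*y*c^5 -4*x*b^5*c^4*z -4*a*b*y^2*c^3
      -6*a*b^2*y*c^2*z +8*a*b^3*c^5 -8*a*b^3*y^2*c^5 -4*a*b^4*y*c^4*z +8*a*b^5*c^3) * h1
    + (-4*a*b*c^3 -8*a*b^3*c^5 -4*a^2*x*b^2*y*c^5 +4*a^2*x*b^3*c^4*z +4*a^3*b*c*z^2 +8*a^3*b*c^5
      +4*a^3*b^2*y*c^4*z -4*a^4*x*b^2*y*c^3 -4*a^4*x*b^3*c^2*z +4*a^5*b^2*y*c^2*z
      +8*a^5*b^3*c*z^2 +16*a^5*b^3*c^5) * h2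
    + (6*a^2*x*b^2*y*c +2*a^2*x*b^3*z +4*a^3*b*c +2*a^3*b^2*y*z -16*a^3*b^5*c +4*a^4*x*b^4*y*c
      +4*a^4*x*b^5*z +4*a^5*b^4*y*z -16*a^5*b^7*c) * h3

/-- cancellation -/
lemma add_neg_cancel' (P Q : Pt) : (P + Q) + -Q = P := by
  have h1 : P.v ^ 2 - (1 - 2 * P.u ^ 4) = 0 := by rw [P.h]; ring
  have h2 : Q.v ^ 2 - (1 - 2 * Q.u ^ 4) = 0 := by rw [Q.h]; ring
  have e12 := D_pos P Q
  ext
  · rw [assoc_u, Pt.add_comm' Q, Pt.neg_add', Pt.add_comm', Pt.zero_add']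
  · rw [add_v (P + Q) (-Q), add_u P Q, add_v P Q, neg_u, neg_v]
    generalize P.u = a at *
    generalize P.v = x at *
    generalize Q.u = b at *
    generalize Q.v = y at *
    set D := 1 + 2 * a ^ 2 * b ^ 2 with hD
    have hD0 : D ≠ 0 := e12.ne'
    have k1 : 1 + 2 * ((a * y + b * x) / D) ^ 2 * (-b) ^ 2 =
        (D ^ 2 + 2 * (a * y + b * x) ^ 2 * b ^ 2) / D ^ 2 := by
      field_simp
    have p1 : 0 < D ^ 2 + 2 * (a * y + b * x) ^ 2 * b ^ 2 := by positivity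
    rw [k1]
    have l1 : ((1 - 2 * ((a * y + b * x) / D) ^ 2 * (-b) ^ 2) *
        (((1 - 2 * a ^ 2 * b ^ 2) * (x * y) - 4 * a * b * (a ^ 2 + b ^ 2)) / D ^ 2 * y) -
        4 * ((a * y + b * x) / D) * -b * (((a * y + b * x) / D) ^ 2 + (-b) ^ 2)) /
        ((D ^ 2 + 2 * (a * y + b * x) ^ 2 * b ^ 2) / D ^ 2) ^ 2 =
        ((D ^ 2 - 2 * (a * y + b * x) ^ 2 * b ^ 2) *
          ((1 - 2 * a ^ 2 * b ^ 2) * (x * y) - 4 * a * b * (a ^ 2 + b ^ 2)) * y +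
          4 * (a * y + b * x) * b * ((a * y + b * x) ^ 2 + b ^ 2 * D ^ 2) * D) /
        (D ^ 2 + 2 * (a * y + b * x) ^ 2 * b ^ 2) ^ 2 := by
      field_simp
      ring
    rw [l1, div_eq_iff (pow_ne_zero 2 p1.ne')]
    rw [hD]
    linear_combination (-2*x*b^4*y^2 -4*x*b^8 -4*x^3*b^8 +4*a*b^3*y -4*a*b^3*y^3 -8*a*b^7*y
      -16*a*x^2*b^7*y -8*a^2*x*b^6 -20*a^2*x*b^6*y^2 -8*a^3*b^5*y^3 -8*a^4*x*b^8) * h1
      + (x -2*x*b^4 -4*a*b^3*y +8*a^2*x*b^2 -2*a^2*x*b^2*y^2 +4*a^3*b*y +24*a^4*x*b^4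
      +24*a^5*b^3*y +16*a^6*x*b^6 +16*a^7*b^5*y) * h2

/-- associativity -/
protected lemma add_assoc' (P Q R : Pt) : (P + Q) + R = P + (Q + R) := by
  have hu := assoc_u P Q R
  by_cases hR : R.u = 0
  · -- R = (0, 1) or (0, -1)
    have hz : R.v ^ 2 = 1 := by rw [R.h, hR]; ring
    have hz' : R.v = 1 ∨ R.v = -1 := by
      rcases mul_eq_zero.1 (show (R.v - 1) * (R.v + 1) = 0 by linear_combination hz) with h | h
      · left; linarith
      · right; linarith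
    have key : ∀ X : Pt, (X + R).u = X.u * R.v ∧ (X + R).v = X.v * R.v := by
      intro X
      constructor
      · rw [add_u, hR]; simp
      · rw [add_v, hR]; simp
    ext
    · exact hu
    · rw [(key (P + Q)).2, add_v P (Q + R), (key Q).1, (key Q).2, add_v P Q]
      rcases hz' with h | h
      · rw [h]; simp
      · rw [h]
        have e : 1 + 2 * P.u ^ 2 * (Q.u * -1) ^ 2 = 1 + 2 * P.u ^ 2 * Q.u ^ 2 := by ring
        rw [e]
        ring
  · -- add -R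
    have hS : (((P + Q) + R) + -R).u = ((P + (Q + R)) + -R).u := by
      rw [add_neg_cancel', assoc_u P (Q + R) (-R), add_neg_cancel']
    have hD := D_pos ((P + Q) + R) (-R)
    rw [add_u ((P + Q) + R) (-R), add_u (P + (Q + R)) (-R), ← hu,
      div_left_inj' hD.ne'] at hS
    ext
    · exact hu
    · simp only [neg_u, neg_v] at hS
      have : R.u * ((P + Q) + R).v = R.u * (P + (Q + R)).v := by linarith
      exact mul_left_cancel₀ hR this

instance : AddCommGroup Pt where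
  add := (· + ·)
  zero := 0
  neg := Neg.neg
  add_assoc := Pt.add_assoc'
  zero_add := Pt.zero_add'
  add_zero := fun P => by rw [Pt.add_comm', Pt.zero_add']
  neg_add_cancel := Pt.neg_add'
  add_comm := Pt.add_comm'
  nsmul := nsmulRec
  zsmul := zsmulRec

/-- the point of order two -/
def T : Pt := ⟨0, -1, by norm_num⟩

/-- the generator -/
def G : Pt := ⟨2 / 3, 7 / 9, by norm_num⟩

@[simp] lemma T_u : T.u = 0 := rfl
@[simp] lemma T_v : T.v = -1 := rfl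
@[simp] lemma G_u : G.u = 2 / 3 := rfl
@[simp] lemma G_v : G.v = 7 / 9 := rfl

lemma add_T_u (P : Pt) : (P + T).u = -P.u := by rw [add_u]; simp

lemma add_T_v (P : Pt) : (P + T).v = -P.v := by rw [add_v]; simp

lemma T_add_T : T + T = 0 := by
  ext
  · rw [add_T_u]; simp
  · rw [add_T_v]; simp

lemma u_zero_iff (P : Pt) : P.u = 0 ↔ P = 0 ∨ P = T := by
  constructor
  · intro h
    have hz : P.v ^ 2 = 1 := by rw [P.h, h]; ring
    have hz' : P.v = 1 ∨ P.v = -1 := by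
      rcases mul_eq_zero.1 (show (P.v - 1) * (P.v + 1) = 0 by linear_combination hz) with h | h
      · left; linarith
      · right; linarith
    rcases hz' with h1 | h1
    · left; ext
      · exact h
      · exact h1
    · right; ext
      · exact h
      · exact h1
  · rintro (h | h) <;> rw [h] <;> rfl

/-- duplication -/
lemma dbl_u (P : Pt) : (P + P).u = 2 * P.u * P.v / (1 + 2 * P.u ^ 4) := by
  rw [add_u]
  congr 1 <;> ring

/-- duplication -/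
lemma dbl_v (P : Pt) : (P + P).v = (1 - 12 * P.u ^ 4 + 4 * P.u ^ 8) / (1 + 2 * P.u ^ 4) ^ 2 := by
  rw [add_v]
  congr 1
  · linear_combination (1 - 2 * P.u ^ 4) * P.h
  · ring

/-- the polynomial Phi is positive -/
lemma Phi_pos (P : Pt) : 1 ≤ 1 + 12 * P.u ^ 4 - 12 * P.u ^ 8 := by
  have h := P.h
  have h1 : 0 ≤ 1 - 2 * P.u ^ 4 := by rw [← h]; positivity
  have h2 : 0 ≤ P.u ^ 4 := by positivity
  nlinarith [mul_nonneg h1 h2]

/-- triplication -/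
lemma tpl_u (P : Pt) : (P + P + P).u =
    P.u * (3 - 12 * P.u ^ 4 - 4 * P.u ^ 8) / (1 + 12 * P.u ^ 4 - 12 * P.u ^ 8) := by
  have hPhi := Phi_pos P
  have hv : P.v ^ 2 - (1 - 2 * P.u ^ 4) = 0 := by rw [P.h]; ring
  rw [add_u (P + P) P, dbl_u, dbl_v]
  have hD : (1 + 2 * P.u ^ 4) ≠ 0 := by positivity
  have k : 1 + 2 * (2 * P.u * P.v / (1 + 2 * P.u ^ 4)) ^ 2 * P.u ^ 2 =
      (1 + 12 * P.u ^ 4 - 12 * P.u ^ 8) / (1 + 2 * P.u ^ 4) ^ 2 := by
    rw [eq_div_iff (pow_ne_zero 2 hD)]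
    have : (2 * P.u * P.v / (1 + 2 * P.u ^ 4)) ^ 2 * (1 + 2 * P.u ^ 4) ^ 2 =
        (2 * P.u * P.v) ^ 2 := by
      rw [← mul_pow, div_mul_cancel₀ _ hD]
    linear_combination (2 * P.u ^ 2) * this + (8 * P.u ^ 4) * hv
  have l : 2 * P.u * P.v / (1 + 2 * P.u ^ 4) * P.v + P.u * ((1 - 12 * P.u ^ 4 + 4 * P.u ^ 8) /
      (1 + 2 * P.u ^ 4) ^ 2) = P.u * (3 - 12 * P.u ^ 4 - 4 * P.u ^ 8) /
      (1 + 2 * P.u ^ 4) ^ 2 := by
    rw [eq_div_iff (pow_ne_zero 2 hD), add_mul, mul_assoc (P.u),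
      div_mul_cancel₀ _ (pow_ne_zero 2 hD)]
    have : 2 * P.u * P.v / (1 + 2 * P.u ^ 4) * P.v * (1 + 2 * P.u ^ 4) ^ 2 =
       2 * P.u * P.v * P.v * (1 + 2 * P.u ^ 4) := by
      field_simp
    rw [this]
    linear_combination (2 * P.u * (1 + 2 * P.u ^ 4)) * hv
  rw [k, l]
  have : (1 + 12 * P.u ^ 4 - 12 * P.u ^ 8) ≠ 0 := by linarith
  field_simp

end Pt

end BQ60
end

section

/-!
# MP_afa64c_lc: integral coordinates

Every point is `(B / a, b / a ^ 2)` with `a = P.u.den`, `B = P.u.num`, `a ^ 4 - 2 * B ^ 4 = b ^ 2`, `a` odd, `B` even.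
Proof. `P.v ^ 2 * a ^ 4 = a ^ 4 - 2 * B ^ 4` is an integer, so the rational number `P.v * a ^ 2` is an integer `b`.
`a` is odd: if `a` is even then `B` is odd (coprime) and `b ^ 2 = a ^ 4 - 2 * B ^ 4` is 2 modulo 4 up to sign, impossible.
`B` is even: if `a`, `B` are odd then `b ^ 2 = 1 - 2 = -1` modulo 16 (or modulo 4), impossible.
-/

set_option autoImplicit false

namespace BQ60

namespace Pt

private lemma int_aux0 (b : ℤ) : b ^ 2 % 4 = 0 ∨ b ^ 2 % 4 = 1 := by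
  rcases Int.emod_two_eq_zero_or_one b with h | h
  · left
    obtain ⟨c, hc⟩ := Int.dvd_of_emod_eq_zero h
    rw [hc]
    ring_nf
    omega
  · right
    obtain ⟨c, hc⟩ : ∃ c, b = 2 * c + 1 := ⟨b / 2, by omega⟩
    rw [hc]
    ring_nf
    omega

private lemma int_odd4 (b : ℤ) (h : ¬ (2 : ℤ) ∣ b) : b ^ 4 % 4 = 1 := by
  obtain ⟨c, hc⟩ : ∃ c, b = 2 * c + 1 := ⟨b / 2, by omega⟩
  have : b ^ 4 = 4 * (4 * c ^ 4 + 8 * c ^ 3 + 6 * c ^ 2 + 2 * c) + 1 := by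
    rw [hc]; ring
  omega

private lemma int_ev4 (b : ℤ) (h : (2 : ℤ) ∣ b) : b ^ 4 % 4 = 0 := by
  obtain ⟨c, hc⟩ := h
  have : b ^ 4 = 4 * (4 * c ^ 4) := by
    rw [hc]; ring
  omega

private lemma int_aux1 (a B b : ℤ) (h : a ^ 4 - 2 * B ^ 4 = b ^ 2) (ha : (2 : ℤ) ∣ a)
    (hB : ¬ (2 : ℤ) ∣ B) : False := by
  have h1 := int_ev4 a ha
  have h2 := int_odd4 B hB
  have h3 := int_aux0 b
  omega

private lemma int_aux2 (a B b : ℤ) (h : a ^ 4 - 2 * B ^ 4 = b ^ 2) (ha : ¬ (2 : ℤ) ∣ a) :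
    (2 : ℤ) ∣ B := by
  by_contra hB
  have h1 := int_odd4 a ha
  have h2 := int_odd4 B hB
  have h3 := int_aux0 b
  omega

lemma coords (P : Pt) : ∃ b : ℤ, (P.u.den : ℤ) ^ 4 - 2 * P.u.num ^ 4 = b ^ 2 ∧
    P.v * (P.u.den : ℚ) ^ 2 = b ∧ ¬ (2 : ℤ) ∣ P.u.den ∧ (2 : ℤ) ∣ P.u.num := by
  have ha0 : (P.u.den : ℚ) ≠ 0 := by exact_mod_cast P.u.den_ne_zero
  have hu : P.u = (P.u.num : ℚ) / (P.u.den : ℚ) := (Rat.num_div_den P.u).symm
  have hsq : (P.v * (P.u.den : ℚ) ^ 2) ^ 2 = (((P.u.den : ℤ) ^ 4 - 2 * P.u.num ^ 4 : ℤ) : ℚ) := by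
    have h := P.h
    have hk : P.u * (P.u.den : ℚ) = (P.u.num : ℚ) := Rat.mul_den_eq_num P.u
    push_cast
    rw [← hk]
    calc (P.v * (P.u.den : ℚ) ^ 2) ^ 2 = P.v ^ 2 * (P.u.den : ℚ) ^ 4 := by ring
      _ = (1 - 2 * P.u ^ 4) * (P.u.den : ℚ) ^ 4 := by rw [h]
      _ = _ := by ring
  have hden : (P.v * (P.u.den : ℚ) ^ 2).den = 1 := by
    have h1 : ((P.v * (P.u.den : ℚ) ^ 2) ^ 2).den = 1 := by
      rw [hsq]; exact Rat.den_intCast _
    rw [Rat.den_pow] at h1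
    exact Nat.eq_one_of_dvd_one (h1 ▸ dvd_pow_self _ (by norm_num))
  obtain ⟨b, hb⟩ : ∃ b : ℤ, P.v * (P.u.den : ℚ) ^ 2 = b :=
    ⟨(P.v * (P.u.den : ℚ) ^ 2).num, (Rat.coe_int_num_of_den_eq_one hden).symm⟩
  have heq : (P.u.den : ℤ) ^ 4 - 2 * P.u.num ^ 4 = b ^ 2 := by
    rw [hb] at hsq
    exact_mod_cast hsq.symm
  have hcop : Int.gcd P.u.num (P.u.den : ℤ) = 1 := by
    have := P.u.reduced
    simpa [Int.gcd, Nat.Coprime] using this
  have hodd : ¬ (2 : ℤ) ∣ (P.u.den : ℤ) := by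
    intro h2
    have hB : ¬ (2 : ℤ) ∣ P.u.num := by
      intro h3
      have h4 : ((2 : ℕ) : ℤ) ∣ ((Int.gcd P.u.num (P.u.den : ℤ) : ℕ) : ℤ) :=
        Int.dvd_coe_gcd (by exact_mod_cast h3) (by exact_mod_cast h2)
      rw [hcop] at h4
      norm_num at h4
    exact int_aux1 _ _ _ heq h2 hB
  exact ⟨b, heq, hb, hodd, int_aux2 _ _ _ heq hodd⟩

/-- `den = 1` forces `1 - 2 B ^ 4 ≥ 0`, so `B = 0`; and `den` is odd. -/
lemma three_le_den (P : Pt) (h : P.u ≠ 0) : 3 ≤ P.u.den := by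
  obtain ⟨b, hb, -, hodd, hev⟩ := coords P
  have hpos : 0 < P.u.den := P.u.den_pos
  by_contra hlt
  have h1 : P.u.den = 1 := by
    have : P.u.den ≠ 2 := by
      intro h2
      apply hodd
      rw [h2]
      norm_num
    omega
  rw [h1] at hb
  have hn : P.u.num = 0 := by
    by_contra hne
    have h4 : 1 ≤ P.u.num ^ 4 := by
      have : 0 < P.u.num ^ 4 := by positivity
      omega
    have hb2 := sq_nonneg b
    push_cast at hb
    nlinarith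
  exact h (Rat.num_eq_zero.1 hn)

end Pt

end BQ60
end
end

section

section

/-!
# MP_afa64c_lc: the descent of Fermat, in integers

Proof. `a` and `b` are odd, `gcd (a, b) = 1`. Put `B = 2 c` (`c` even, since 4 divides `B`). The integers
`m = (a ^ 2 - b) / 2`, `n = (a ^ 2 + b) / 2` are positive, coprime, and `m n = B ^ 4 / 2 = 8 c ^ 4`.
One of them is even, so `{m, n} = {8 r ^ 4, s ^ 4}` with `s` odd, `r, s > 0` coprime, `c = r s` up to sign. Hence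
`a ^ 2 = s ^ 4 + 8 r ^ 4`, `b = s ^ 4 - 8 r ^ 4` up to sign, `B = 2 r s` up to sign.
Now `(a - s ^ 2) / 2` and `(a + s ^ 2) / 2` are positive coprime integers with product `2 r ^ 4`.
Case (i): they are `2 y ^ 4` and `x ^ 4`: then `a = x ^ 4 + 2 y ^ 4`, `s ^ 2 = x ^ 4 - 2 y ^ 4`, `r = x y`.
Case (ii): they are `x ^ 4` and `2 y ^ 4`: then `s ^ 2 = 2 y ^ 4 - x ^ 4`, `x` is odd (coprime to the even one), `s` is odd,
so `2 y ^ 4 = s ^ 2 + x ^ 4` is 2 modulo 8 and `y` is odd; then `B = 2 x y s` up to sign is not divisible by 4: contradiction.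
In case (i) `b = s ^ 4 - 8 r ^ 4 = (x ^ 4 - 2 y ^ 4) ^ 2 - 8 x ^ 4 y ^ 4 = x ^ 8 - 12 x ^ 4 y ^ 4 + 4 y ^ 8` up to sign, and
the sign of `B = 2 x y s` is adjusted by replacing `s` by `-s`.
Mathlib has: for coprime factors whose product is a k-th power, each factor is associated to a k-th power
(`exists_associated_pow_of_mul_eq_pow`, `Int.sq_of_isCoprime`, `Finset.exists_eq_pow_of_mul_eq_pow`, `Nat` version
`Nat.eq_pow_of_mul_eq_pow` ...).
-/

set_option autoImplicit false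

namespace BQ60

private theorem descA_pow4 (u v w : ℤ) (hu : 0 < u) (h : IsCoprime u v) (e : u * v = w ^ 4) :
    ∃ d : ℤ, 0 ≤ d ∧ u = d ^ 4 := by
  obtain ⟨d, hd⟩ := exists_associated_pow_of_mul_eq_pow' h e
  refine ⟨|d|, abs_nonneg d, ?_⟩
  have h4 : |d| ^ 4 = d ^ 4 := Even.pow_abs ⟨2, rfl⟩ d
  rw [h4]
  rcases Int.associated_iff.1 hd with h1 | h1
  · exact h1.symm
  · exfalso
    have : 0 ≤ d ^ 4 := by positivity
    linarith

private theorem descA_eq4 (c d : ℤ) (hc : c ≠ 0) (h : c ^ 4 = d ^ 4) : c = d ∨ c = -d := by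
  have h1 : (c - d) * ((c + d) * (c ^ 2 + d ^ 2)) = 0 := by ring_nf; linarith
  rcases mul_eq_zero.1 h1 with h2 | h2
  · left; linarith
  · rcases mul_eq_zero.1 h2 with h3 | h3
    · right; linarith
    · exfalso
      have : 0 < c ^ 2 := by positivity
      have : 0 ≤ d ^ 2 := sq_nonneg d
      linarith

private theorem descA_two_not {u v : ℤ} (h : IsCoprime u v) (h1 : (2 : ℤ) ∣ u) (h2 : (2 : ℤ) ∣ v) :
    False := by
  have := h.isUnit_of_dvd' h1 h2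
  rw [Int.isUnit_iff] at this
  omega

private theorem descA_odd_sq {s : ℤ} (h : ¬ (2 : ℤ) ∣ s) : ∃ k, s ^ 2 = 4 * k + 1 := by
  obtain ⟨j, hj⟩ : ∃ j, s = 2 * j + 1 := ⟨s / 2, by omega⟩
  exact ⟨j ^ 2 + j, by rw [hj]; ring⟩

private theorem descA_core (a c r s : ℤ) (ha : 0 < a) (hc : c ≠ 0) (hce : (2 : ℤ) ∣ c)
    (h1 : a ^ 2 = s ^ 4 + 8 * r ^ 4) (hrs : c ^ 4 = r ^ 4 * s ^ 4)
    (hco : IsCoprime (8 * r ^ 4) (s ^ 4)) :
    ∃ x y t : ℤ, 0 < x ∧ IsCoprime x y ∧ x ^ 4 - 2 * y ^ 4 = t ^ 2 ∧ a = x ^ 4 + 2 * y ^ 4 ∧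
      c = x * y * t ∧ s ^ 4 - 8 * r ^ 4 = x ^ 8 - 12 * x ^ 4 * y ^ 4 + 4 * y ^ 8 := by
  have hc4 : c ^ 4 ≠ 0 := pow_ne_zero 4 hc
  have hr4 : r ^ 4 ≠ 0 := by
    intro h0; rw [h0, zero_mul] at hrs; exact hc4 hrs
  have hs4 : s ^ 4 ≠ 0 := by
    intro h0; rw [h0, mul_zero] at hrs; exact hc4 hrs
  have hs0 : s ≠ 0 := by
    intro h0; rw [h0] at hs4; simp at hs4
  have hr0 : r ≠ 0 := by
    intro h0; rw [h0] at hr4; simp at hr4
  have hsodd : ¬ (2 : ℤ) ∣ s := by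
    intro h2
    refine descA_two_not hco ?_ (dvd_pow h2 (by norm_num))
    exact ⟨4 * r ^ 4, by ring⟩
  obtain ⟨k, hk⟩ := descA_odd_sq hsodd
  have haodd : ¬ (2 : ℤ) ∣ a := by
    rintro ⟨j, hj⟩
    have e1 : s ^ 4 = (4 * k + 1) ^ 2 := by rw [← hk]; ring
    rw [e1, hj] at h1
    have e2 : 4 * j ^ 2 = 16 * k ^ 2 + 8 * k + 1 + 8 * r ^ 4 := by linarith
    omega
  obtain ⟨p, hp⟩ : ∃ p, a - s ^ 2 = 2 * p := ⟨(a - s ^ 2) / 2, by omega⟩
  obtain ⟨q, hq⟩ : ∃ q, a + s ^ 2 = 2 * q := ⟨p + s ^ 2, by linarith⟩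
  have hpq : p * q = 2 * r ^ 4 := by
    have e1 : (a - s ^ 2) * (a + s ^ 2) = a ^ 2 - s ^ 4 := by ring
    rw [hp, hq, h1] at e1
    linarith
  have hq0 : 0 < q := by
    have : 0 ≤ s ^ 2 := sq_nonneg s
    linarith
  have hr4p : 0 < r ^ 4 := by positivity
  have hp0 : 0 < p := by
    by_contra hcon
    have : p * q ≤ 0 := mul_nonpos_of_nonpos_of_nonneg (not_lt.1 hcon) hq0.le
    linarith
  have hsa : IsCoprime s a := by
    have e1 : IsCoprime (8 * r ^ 4) s := (IsCoprime.pow_right_iff (by norm_num)).1 hco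
    have e2 : IsCoprime s (8 * r ^ 4 + s * s ^ 3) := e1.symm.add_mul_left_right _
    have e3 : 8 * r ^ 4 + s * s ^ 3 = a ^ 2 := by rw [h1]; ring
    rw [e3] at e2
    exact (IsCoprime.pow_right_iff (by norm_num)).1 e2
  have hcopq : IsCoprime p q := by
    have e1 : IsCoprime a (s ^ 2) := hsa.symm.pow_right
    obtain ⟨u, v, huv⟩ := e1
    refine ⟨u - v, u + v, ?_⟩
    have e2 : a = p + q := by linarith
    have e3 : s ^ 2 = q - p := by linarith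
    rw [e2, e3] at huv
    linarith
  have h2pq : (2 : ℤ) ∣ p * q := ⟨r ^ 4, hpq⟩
  rcases Int.prime_two.dvd_or_dvd h2pq with h2 | h2
  · obtain ⟨p', hp'⟩ := h2
    have hp'0 : 0 < p' := by omega
    have hco' : IsCoprime p' q := by
      rw [hp'] at hcopq
      exact hcopq.of_mul_left_right
    have e1 : p' * q = r ^ 4 := by
      rw [hp'] at hpq
      linarith
    obtain ⟨y, hy0, hy⟩ := descA_pow4 p' q r hp'0 hco' e1
    obtain ⟨x, hx0, hx⟩ := descA_pow4 q p' r hq0 hco'.symm (by linarith)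
    have hxpos : 0 < x := by
      rcases hx0.lt_or_eq with h | h
      · exact h
      · rw [← h] at hx
        simp at hx
        omega
    have hr : r ^ 4 = x ^ 4 * y ^ 4 := by rw [← e1, hy, hx]; ring
    have hcop : IsCoprime x y := by
      rw [hy, hx] at hco'
      exact ((IsCoprime.pow_iff (by norm_num) (by norm_num)).1 hco').symm
    have hs2 : x ^ 4 - 2 * y ^ 4 = s ^ 2 := by rw [← hy, ← hx]; linarith
    have haa : a = x ^ 4 + 2 * y ^ 4 := by rw [← hy, ← hx]; linarith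
    have hb : s ^ 4 - 8 * r ^ 4 = x ^ 8 - 12 * x ^ 4 * y ^ 4 + 4 * y ^ 8 := by
      have e2 : s ^ 4 = (x ^ 4 - 2 * y ^ 4) ^ 2 := by rw [hs2]; ring
      rw [e2, hr]; ring
    have hc4' : c ^ 4 = (x * y * s) ^ 4 := by rw [hrs, hr]; ring
    rcases descA_eq4 c (x * y * s) hc hc4' with h | h
    · exact ⟨x, y, s, hxpos, hcop, hs2, haa, h, hb⟩
    · exact ⟨x, y, -s, hxpos, hcop, by rw [hs2]; ring, haa, by rw [h]; ring, hb⟩
  · exfalso
    obtain ⟨q', hq'⟩ := h2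
    have hq'0 : 0 < q' := by omega
    have hco' : IsCoprime p q' := by
      rw [hq'] at hcopq
      exact hcopq.of_mul_right_right
    have e1 : p * q' = r ^ 4 := by
      rw [hq'] at hpq
      linarith
    obtain ⟨x, hx0, hx⟩ := descA_pow4 p q' r hp0 hco' e1
    obtain ⟨y, hy0, hy⟩ := descA_pow4 q' p r hq'0 hco'.symm (by linarith)
    have hr : r ^ 4 = x ^ 4 * y ^ 4 := by rw [← e1, hy, hx]
    have hxodd : ¬ (2 : ℤ) ∣ x := by
      intro h2x
      refine descA_two_not hcopq ?_ ⟨q', hq'⟩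
      rw [hx]
      exact dvd_pow h2x (by norm_num)
    have hc4' : c ^ 4 = (x * y * s) ^ 4 := by rw [hrs, hr]; ring
    have h2c : (2 : ℤ) ∣ x * y * s := by
      rcases descA_eq4 c (x * y * s) hc hc4' with h | h
      · rwa [h] at hce
      · rw [h, dvd_neg] at hce
        exact hce
    have h2y : (2 : ℤ) ∣ y := by
      rcases Int.prime_two.dvd_or_dvd h2c with h | h
      · rcases Int.prime_two.dvd_or_dvd h with h | h
        · exact absurd h hxodd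
        · exact h
      · exact absurd h hsodd
    obtain ⟨y', hy'⟩ := h2y
    obtain ⟨l, hl⟩ := descA_odd_sq hxodd
    have hs2 : s ^ 2 = 2 * y ^ 4 - x ^ 4 := by
      have : s ^ 2 = q - p := by linarith
      rw [this, hq', hy, hx]
    have hx4 : x ^ 4 = 16 * l ^ 2 + 8 * l + 1 := by
      have : x ^ 4 = (x ^ 2) ^ 2 := by ring
      rw [this, hl]; ring
    have hy4 : y ^ 4 = 16 * y' ^ 4 := by rw [hy']; ring
    rw [hx4, hy4, hk] at hs2
    omega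

theorem fermat_descent (a B b : ℤ) (ha : 0 < a) (hB : B ≠ 0) (hc : IsCoprime a B)
    (ha2 : ¬ (2 : ℤ) ∣ a) (h4 : (4 : ℤ) ∣ B) (h : a ^ 4 - 2 * B ^ 4 = b ^ 2) :
    ∃ x y s : ℤ, 0 < x ∧ IsCoprime x y ∧ x ^ 4 - 2 * y ^ 4 = s ^ 2 ∧ a = x ^ 4 + 2 * y ^ 4 ∧
      B = 2 * x * y * s ∧
      (b = x ^ 8 - 12 * x ^ 4 * y ^ 4 + 4 * y ^ 8 ∨
        b = -(x ^ 8 - 12 * x ^ 4 * y ^ 4 + 4 * y ^ 8)) := by
  obtain ⟨c', hc'⟩ := h4
  obtain ⟨c, hcc⟩ : ∃ c, c = 2 * c' := ⟨_, rfl⟩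
  have hBc : B = 2 * c := by rw [hc', hcc]; ring
  have hc0 : c ≠ 0 := by
    intro h0; apply hB; rw [hBc, h0]; ring
  have hce : (2 : ℤ) ∣ c := ⟨c', hcc⟩
  obtain ⟨k, hk⟩ := descA_odd_sq ha2
  have hbodd : ¬ (2 : ℤ) ∣ b := by
    rintro ⟨j, hj⟩
    have e1 : a ^ 4 = 16 * k ^ 2 + 8 * k + 1 := by
      have : a ^ 4 = (a ^ 2) ^ 2 := by ring
      rw [this, hk]; ring
    rw [e1, hj] at h
    have e2 : 4 * j ^ 2 = 16 * k ^ 2 + 8 * k + 1 - 2 * B ^ 4 := by linarith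
    omega
  have hab : IsCoprime a b := by
    have e1 : IsCoprime a 2 := by
      obtain ⟨j, hj⟩ : ∃ j, a = 2 * j + 1 := ⟨a / 2, by omega⟩
      exact ⟨1, -j, by rw [hj]; ring⟩
    have e2 : IsCoprime a (2 * B ^ 4) := e1.mul_right hc.pow_right
    have e3 : IsCoprime a (-(2 * B ^ 4) + a * a ^ 3) := e2.neg_right.add_mul_left_right _
    have e4 : -(2 * B ^ 4) + a * a ^ 3 = b ^ 2 := by rw [← h]; ring
    rw [e4] at e3
    exact (IsCoprime.pow_right_iff (by norm_num)).1 e3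
  obtain ⟨m, hm⟩ : ∃ m, a ^ 2 - b = 2 * m := ⟨(a ^ 2 - b) / 2, by omega⟩
  obtain ⟨n, hn⟩ : ∃ n, a ^ 2 + b = 2 * n := ⟨m + b, by linarith⟩
  have hmn : m * n = 8 * c ^ 4 := by
    have e1 : (a ^ 2 - b) * (a ^ 2 + b) = a ^ 4 - b ^ 2 := by ring
    rw [hm, hn, ← h, hBc] at e1
    have e2 : a ^ 4 - (a ^ 4 - 2 * (2 * c) ^ 4) = 32 * c ^ 4 := by ring
    rw [e2] at e1
    linarith
  have hc4p : 0 < c ^ 4 := by positivity
  have hlt : -(a ^ 2) < b ∧ b < a ^ 2 := by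
    refine abs_lt_of_sq_lt_sq' ?_ (by positivity)
    have e1 : (a ^ 2) ^ 2 = b ^ 2 + 32 * c ^ 4 := by rw [← h, hBc]; ring
    rw [e1]
    linarith
  have hm0 : 0 < m := by linarith [hlt.2]
  have hn0 : 0 < n := by linarith [hlt.1]
  have hcomn : IsCoprime m n := by
    have e1 : IsCoprime (a ^ 2) b := hab.pow_left
    obtain ⟨u, v, huv⟩ := e1
    refine ⟨u - v, u + v, ?_⟩
    have e2 : a ^ 2 = m + n := by linarith
    have e3 : b = n - m := by linarith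
    rw [e2, e3] at huv
    linarith
  have key : ∀ m n : ℤ, 0 < m → 0 < n → IsCoprime m n → m * n = 8 * c ^ 4 → a ^ 2 = m + n →
      (2 : ℤ) ∣ m → ∃ x y t : ℤ, 0 < x ∧ IsCoprime x y ∧ x ^ 4 - 2 * y ^ 4 = t ^ 2 ∧
        a = x ^ 4 + 2 * y ^ 4 ∧ c = x * y * t ∧
          n - m = x ^ 8 - 12 * x ^ 4 * y ^ 4 + 4 * y ^ 8 := by
    intro m n hm0 hn0 hco hmn hsum h2
    have h8n : IsCoprime (8 : ℤ) n := by
      have e1 : IsCoprime (2 : ℤ) n := IsCoprime.of_isCoprime_of_dvd_left hco h2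
      have e2 : IsCoprime ((2 : ℤ) ^ 3) n := e1.pow_left
      norm_num at e2
      exact e2
    have h8m : (8 : ℤ) ∣ m := h8n.dvd_of_dvd_mul_right ⟨c ^ 4, hmn⟩
    obtain ⟨m', hm'⟩ := h8m
    have hm'0 : 0 < m' := by omega
    have hco' : IsCoprime m' n := by
      rw [hm'] at hco
      exact hco.of_mul_left_right
    have e1 : m' * n = c ^ 4 := by
      rw [hm'] at hmn
      linarith
    obtain ⟨r, -, hr⟩ := descA_pow4 m' n c hm'0 hco' e1
    obtain ⟨s, -, hs⟩ := descA_pow4 n m' c hn0 hco'.symm (by linarith)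
    obtain ⟨x, y, t, h1, h2, h3, h4, h5, h6⟩ := descA_core a c r s ha hc0 hce
      (by rw [hsum, hm', hr, hs]; ring) (by rw [← e1, hr, hs]) (by rw [hm', hr, hs] at hco; exact hco)
    refine ⟨x, y, t, h1, h2, h3, h4, h5, ?_⟩
    rw [← h6, hm', hr, hs]
  have h2mn : (2 : ℤ) ∣ m * n := ⟨4 * c ^ 4, by rw [hmn]; ring⟩
  rcases Int.prime_two.dvd_or_dvd h2mn with h2 | h2
  · obtain ⟨x, y, t, h1, h2, h3, h4, h5, h6⟩ := key m n hm0 hn0 hcomn hmn (by linarith) h2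
    refine ⟨x, y, t, h1, h2, h3, h4, by rw [hBc, h5]; ring, Or.inl ?_⟩
    rw [← h6]; linarith
  · obtain ⟨x, y, t, h1, h2, h3, h4, h5, h6⟩ := key n m hn0 hm0 hcomn.symm (by linarith)
      (by linarith) h2
    refine ⟨x, y, t, h1, h2, h3, h4, by rw [hBc, h5]; ring, Or.inr ?_⟩
    rw [← h6]; linarith

end BQ60
end

section

/-!
# MP_afa64c_lc: the kernel of reduction modulo a prime

`inK q P` says that the prime `q` divides the numerator of `P.u` (true for `P.u = 0`). In terms of the `q`-adic norm this is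
`padicNorm q P.u < 1`, and `q` divides the denominator iff `1 < padicNorm q P.u`.
-/

set_option autoImplicit false

namespace BQ60

open Pt

/-- `q` divides the numerator of `P.u` -/
def inK (q : ℕ) (P : Pt) : Prop := (q : ℤ) ∣ P.u.num

private lemma norm_pow' (q : ℕ) [Fact q.Prime] (x : ℚ) (n : ℕ) :
    padicNorm q (x ^ n) = padicNorm q x ^ n := by
  induction n with
  | zero => simp
  | succ n ih => rw [pow_succ, pow_succ, padicNorm.mul, ih]

private lemma norm_lt_one_iff (q : ℕ) (hq : q.Prime) (x : ℚ) :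
    (q : ℤ) ∣ x.num ↔ padicNorm q x < 1 := by
  have : Fact q.Prime := ⟨hq⟩
  by_cases hx : x = 0
  · subst hx; simp
  have hd : (x.den : ℚ) ≠ 0 := by exact_mod_cast x.den_nz
  have hx' : padicNorm q x = padicNorm q (x.num : ℚ) / padicNorm q (x.den : ℚ) := by
    rw [← padicNorm.div, Rat.num_div_den]
  constructor
  · intro h
    have h1 : padicNorm q (x.num : ℚ) < 1 := (padicNorm.int_lt_one_iff _).2 h
    have h2 : padicNorm q (x.den : ℚ) = 1 := by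
      have : ¬ (q ∣ x.den) := by
        intro h'
        have hc := x.reduced
        have : q ∣ x.num.natAbs := Int.natCast_dvd.1 h
        exact Nat.Prime.one_lt hq |>.ne' (Nat.dvd_one.1 (hc ▸ Nat.dvd_gcd this h'))
      exact (padicNorm.nat_eq_one_iff _).2 this
    rw [hx', h2, div_one]
    exact h1
  · intro h
    have h2 : padicNorm q (x.den : ℚ) ≤ 1 := padicNorm.of_nat _
    have h3 : 0 < padicNorm q (x.den : ℚ) := by
      have := padicNorm.nonneg (p := q) (x.den : ℚ)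
      exact lt_of_le_of_ne this (Ne.symm (padicNorm.nonzero hd))
    rw [hx', div_lt_one h3] at h
    exact (padicNorm.int_lt_one_iff _).1 (lt_of_lt_of_le h h2)

private lemma one_lt_norm_iff (q : ℕ) (hq : q.Prime) (x : ℚ) :
    q ∣ x.den ↔ 1 < padicNorm q x := by
  have : Fact q.Prime := ⟨hq⟩
  have hd : (x.den : ℚ) ≠ 0 := by exact_mod_cast x.den_nz
  have hx' : padicNorm q x = padicNorm q (x.num : ℚ) / padicNorm q (x.den : ℚ) := by
    rw [← padicNorm.div, Rat.num_div_den]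
  have h3 : 0 < padicNorm q (x.den : ℚ) := by
    have := padicNorm.nonneg (p := q) (x.den : ℚ)
    exact lt_of_le_of_ne this (Ne.symm (padicNorm.nonzero hd))
  have hn1 : padicNorm q (x.num : ℚ) ≤ 1 := padicNorm.of_int _
  constructor
  · intro h
    have h1 : padicNorm q (x.den : ℚ) < 1 := (padicNorm.nat_lt_one_iff _).2 h
    have h2 : padicNorm q (x.num : ℚ) = 1 := by
      have : ¬ ((q : ℤ) ∣ x.num) := by
        intro h'
        have hc := x.reduced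
        have : q ∣ x.num.natAbs := Int.natCast_dvd.1 h'
        exact Nat.Prime.one_lt hq |>.ne' (Nat.dvd_one.1 (hc ▸ Nat.dvd_gcd this h))
      exact (padicNorm.int_eq_one_iff _).2 this
    rw [hx', h2, one_lt_div h3]
    exact h1
  · intro h
    rw [hx', one_lt_div h3] at h
    exact (padicNorm.nat_lt_one_iff _).1 (lt_of_lt_of_le h hn1)

lemma inK_iff_norm (q : ℕ) (hq : q.Prime) (P : Pt) : inK q P ↔ padicNorm q P.u < 1 :=
  norm_lt_one_iff q hq P.u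

lemma dvd_den_iff_norm (q : ℕ) (hq : q.Prime) (P : Pt) :
    q ∣ P.u.den ↔ 1 < padicNorm q P.u := one_lt_norm_iff q hq P.u

lemma inK_zero (q : ℕ) : inK q 0 := by simp [inK]

lemma inK_T (q : ℕ) : inK q T := by simp [inK]

lemma inK_neg (q : ℕ) (P : Pt) (h : inK q P) : inK q (-P) := by
  unfold inK at *
  rw [neg_u, Rat.neg_num]
  exact (dvd_neg).2 h

/-- `|u_i| < 1`, `|v_i| ≤ 1` (as `v_i ^ 2 = 1 - 2 u_i ^ 4`), and `1 + 2 u_1^2 u_2^2` has norm 1 -/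
lemma inK_add (q : ℕ) (hq : q.Prime) (P Q : Pt) (hP : inK q P) (hQ : inK q Q) : inK q (P + Q) := by
  have : Fact q.Prime := ⟨hq⟩
  rw [inK_iff_norm q hq] at *
  have n2 : padicNorm q (2 : ℚ) ≤ 1 := by
    have := padicNorm.of_nat (p := q) 2
    exact_mod_cast this
  have hv : ∀ R : Pt, padicNorm q R.u < 1 → padicNorm q R.v ≤ 1 := by
    intro R hR
    have h0 := padicNorm.nonneg (p := q) R.u
    have h1 : padicNorm q (R.v ^ 2) ≤ 1 := by
      rw [R.h]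
      refine le_trans (padicNorm.sub (p := q)) (max_le ?_ ?_)
      · rw [padicNorm.one]
      · rw [padicNorm.mul, norm_pow']
        calc _ ≤ 1 * 1 := mul_le_mul n2 (pow_le_one₀ h0 hR.le) (by positivity) zero_le_one
          _ = 1 := by norm_num
    rw [norm_pow'] at h1
    have h2 := padicNorm.nonneg (p := q) R.v
    nlinarith
  have hPv := hv P hP
  have hQv := hv Q hQ
  have p0 := padicNorm.nonneg (p := q) P.u
  have q0 := padicNorm.nonneg (p := q) Q.u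
  have pv0 := padicNorm.nonneg (p := q) P.v
  have qv0 := padicNorm.nonneg (p := q) Q.v
  have hD : padicNorm q (1 + 2 * P.u ^ 2 * Q.u ^ 2) = 1 := by
    have h1 : padicNorm q (2 * P.u ^ 2 * Q.u ^ 2) < 1 := by
      rw [padicNorm.mul, padicNorm.mul, norm_pow', norm_pow']
      have a1 : padicNorm q P.u ^ 2 ≤ 1 := pow_le_one₀ p0 hP.le
      have a2 : padicNorm q Q.u ^ 2 < 1 := pow_lt_one₀ q0 hQ two_ne_zero
      have n0 := padicNorm.nonneg (p := q) (2 : ℚ)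
      have a3 : padicNorm q (2 : ℚ) * padicNorm q P.u ^ 2 ≤ 1 := by
        calc _ ≤ 1 * 1 := mul_le_mul n2 a1 (by positivity) zero_le_one
          _ = 1 := by norm_num
      calc _ ≤ 1 * padicNorm q Q.u ^ 2 := mul_le_mul_of_nonneg_right a3 (by positivity)
        _ < 1 := by linarith
    have h2 := padicNorm.add_eq_max_of_ne (p := q) (q := (1 : ℚ)) (r := 2 * P.u ^ 2 * Q.u ^ 2)
      (by rw [padicNorm.one]; exact h1.ne')
    rw [h2, padicNorm.one]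
    exact max_eq_left h1.le
  rw [add_u, padicNorm.div, hD, div_one]
  refine lt_of_le_of_lt (padicNorm.nonarchimedean (p := q)) (max_lt ?_ ?_)
  · rw [padicNorm.mul]
    calc _ ≤ padicNorm q P.u * 1 := mul_le_mul_of_nonneg_left hQv p0
      _ < 1 := by linarith
  · rw [padicNorm.mul]
    calc _ ≤ padicNorm q Q.u * 1 := mul_le_mul_of_nonneg_left hPv q0
      _ < 1 := by linarith

lemma inK_add_iff (q : ℕ) (hq : q.Prime) (P Q : Pt) (hQ : inK q Q) : inK q (P + Q) ↔ inK q P := by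
  constructor
  · intro h
    have := inK_add q hq _ _ h (inK_neg q Q hQ)
    rwa [add_neg_cancel_right] at this
  · intro h
    exact inK_add q hq _ _ h hQ

lemma inK_zsmul (q : ℕ) (hq : q.Prime) (P : Pt) (hP : inK q P) (n : ℤ) : inK q (n • P) := by
  have hn : ∀ m : ℕ, inK q (m • P) := by
    intro m
    induction m with
    | zero => rw [zero_smul]; exact inK_zero q
    | succ m ih => rw [succ_nsmul]; exact inK_add q hq _ _ ih hP
  rcases Int.eq_nat_or_neg n with ⟨m, rfl | rfl⟩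
  · rw [natCast_zsmul]; exact hn m
  · rw [neg_smul, natCast_zsmul]; exact inK_neg q _ (hn m)

/-- `inK 2 P` always holds (`coords`) -/
lemma inK_two (P : Pt) : inK 2 P := by
  obtain ⟨b, -, -, -, h⟩ := coords P
  exact_mod_cast h

/-- For `q` odd dividing the denominator of `u`: `|v| = |u|^2`, `|1 + 2 u^4| = |u|^4`, so
`|(P + P).u| = |2 u v / (1 + 2 u^4)| = 1 / |u| < 1`. -/
lemma inK_dbl_of_dvd_den (q : ℕ) (hq : q.Prime) (hq2 : q ≠ 2) (P : Pt) (h : q ∣ P.u.den) :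
    inK q (P + P) := by
  have : Fact q.Prime := ⟨hq⟩
  rw [inK_iff_norm q hq]
  rw [dvd_den_iff_norm q hq] at h
  have n2 : padicNorm q (2 : ℚ) = 1 := by
    have : ¬ q ∣ 2 := fun h' => hq2 ((Nat.prime_dvd_prime_iff_eq hq Nat.prime_two).1 h')
    have := (padicNorm.nat_eq_one_iff (p := q) _).2 this
    exact_mod_cast this
  set N := padicNorm q P.u with hN
  have hN0 : 0 < N := by linarith
  have h4 : padicNorm q (2 * P.u ^ 4) = N ^ 4 := by
    rw [padicNorm.mul, norm_pow', n2, one_mul]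
  have h41 : 1 < N ^ 4 := one_lt_pow₀ h (by norm_num)
  have hD : padicNorm q (1 + 2 * P.u ^ 4) = N ^ 4 := by
    have h2 := padicNorm.add_eq_max_of_ne (p := q) (q := (1 : ℚ)) (r := 2 * P.u ^ 4)
      (by rw [padicNorm.one, h4]; exact h41.ne)
    rw [h2, padicNorm.one, h4]
    exact max_eq_right h41.le
  have hv : padicNorm q P.v = N ^ 2 := by
    have h1 : padicNorm q (P.v ^ 2) = N ^ 4 := by
      rw [P.h, sub_eq_add_neg]
      have h2 := padicNorm.add_eq_max_of_ne (p := q) (q := (1 : ℚ)) (r := -(2 * P.u ^ 4))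
        (by rw [padicNorm.one, padicNorm.neg, h4]; exact h41.ne)
      rw [h2, padicNorm.one, padicNorm.neg, h4]
      exact max_eq_right h41.le
    rw [norm_pow'] at h1
    have h3 := padicNorm.nonneg (p := q) P.v
    have : padicNorm q P.v ^ 2 = (N ^ 2) ^ 2 := by rw [h1]; ring
    exact (pow_left_inj₀ h3 (by positivity) two_ne_zero).1 this
  rw [dbl_u, padicNorm.div, padicNorm.mul, padicNorm.mul, n2, hv, hD, ← hN, one_mul,
    div_lt_one (by positivity)]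
  calc N * N ^ 2 = N ^ 3 := by ring
    _ < N ^ 4 := pow_lt_pow_right₀ h (by norm_num)

/-- numerator and denominator are coprime -/
lemma not_inK_of_dvd_den (q : ℕ) (hq : q.Prime) (P : Pt) (h : q ∣ P.u.den) : ¬ inK q P := by
  rw [inK_iff_norm q hq]
  rw [dvd_den_iff_norm q hq] at h
  exact not_lt.2 h.le

end BQ60
end

section

/-!
# MP_afa64c_lc: new primes in the denominator of 3 P

With `a = P.u.den`, `B = P.u.num`, `b` from `coords`: `a ^ 4 - 2 B ^ 4 = b ^ 2`, `a`, `b` odd, `B` even.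
Put `Φ = a^8 + 12 a^4 B^4 - 12 B^8`, `Ψ = 3 a^8 - 12 a^4 B^4 - 4 B^8`; by `tpl_u`, `(P+P+P).u = B Ψ / (a Φ)`.
* `Φ ≥ a ^ 8 > 3` because `2 B ^ 4 ≤ a ^ 4` (so `12 a^4 B^4 ≥ 12 B^8`); `Φ` is odd.
* 9 does not divide `Φ`: if `3 ∣ a` then `Φ = -12 B^8` modulo 9 and `3` does not divide `B`; if `3 ∣ B`, `Φ = a^8` modulo 3; if 3
  divides neither, `Φ = a^8 = 1` modulo 3.
* So there is a prime `q ∣ Φ` with `q ≠ 2, 3`.
* `q` does not divide `a` (else `q ∣ 12 B^8`, so `q ∣ B`, contradiction with coprimality), nor `B`.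
* `q` does not divide `Ψ`: `3 Φ - Ψ = 16 B^4 (3 a^4 - 2 B^4)`, so `q ∣ 3 a^4 - 2 B^4`, and
  `Φ = a^8 + 6 a^4 (2 B^4) - 3 (2 B^4)^2 = (1 + 18 - 27) a^8 = -8 a^8` modulo `q`: contradiction.
  So `q` divides the denominator of `(P+P+P).u = B Ψ / (a Φ)`.
* `q` does not divide `b`: otherwise `2 B^4 = a^4` and `Φ = (1 + 6 - 3) a^8 = 4 a^8` modulo `q`.
  `(P+P).u = 2 a B b / (a^4 + 2 B^4)` (`dbl_u`), so `q` does not divide the numerator of `(P+P).u`.
-/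

set_option autoImplicit false

namespace BQ60

open Pt

private lemma PrimA_nat (n : ℕ) (h3 : 3 < n) (h2 : ¬ 2 ∣ n) (h9 : ¬ 9 ∣ n) :
    ∃ q : ℕ, q.Prime ∧ q ∣ n ∧ q ≠ 2 ∧ q ≠ 3 := by
  by_contra hcon
  push Not at hcon
  have hall : ∀ {d : ℕ}, d.Prime → d ∣ n → d = 3 := by
    intro d hd hdn
    by_contra h
    by_cases hd2 : d = 2
    · exact h2 (hd2 ▸ hdn)
    · exact h (hcon d hd hdn hd2)
  have hk := Nat.eq_prime_pow_of_unique_prime_dvd (by omega : n ≠ 0) hall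
  generalize n.primeFactorsList.length = k at hk
  have hk1 : k ≤ 1 := by
    by_contra hk1
    apply h9
    obtain ⟨m, rfl⟩ : ∃ m, k = m + 2 := ⟨k - 2, by omega⟩
    rw [hk, pow_add]
    exact Dvd.intro_left _ rfl
  interval_cases k
  · omega
  · omega

private lemma PrimA_mod3 (x : ℤ) (h : ¬ (3 : ℤ) ∣ x) : ∃ k : ℤ, x ^ 8 = 3 * k + 1 := by
  have h2 : ∃ k : ℤ, x ^ 2 = 3 * k + 1 := by
    rcases (by omega : x % 3 = 1 ∨ x % 3 = 2) with h1 | h1
    · obtain ⟨c, hc⟩ : ∃ c, x = 3 * c + 1 := ⟨x / 3, by omega⟩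
      exact ⟨3 * c ^ 2 + 2 * c, by rw [hc]; ring⟩
    · obtain ⟨c, hc⟩ : ∃ c, x = 3 * c + 2 := ⟨x / 3, by omega⟩
      exact ⟨3 * c ^ 2 + 4 * c + 1, by rw [hc]; ring⟩
  obtain ⟨k, hk⟩ := h2
  refine ⟨27 * k ^ 4 + 36 * k ^ 3 + 18 * k ^ 2 + 4 * k, ?_⟩
  have : x ^ 8 = (x ^ 2) ^ 4 := by ring
  rw [this, hk]
  ring

/-- the numbers `a`, `B` -/
private lemma PrimA_int (a B : ℤ) (hcop : IsCoprime a B) (hle : 2 * B ^ 4 ≤ a ^ 4) (ha3 : 3 ≤ a)
    (ha : ¬ (2 : ℤ) ∣ a) :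
    ∃ q : ℕ, q.Prime ∧ (q : ℤ) ∣ (a ^ 8 + 12 * a ^ 4 * B ^ 4 - 12 * B ^ 8) ∧ q ≠ 2 ∧ q ≠ 3 := by
  set F : ℤ := a ^ 8 + 12 * a ^ 4 * B ^ 4 - 12 * B ^ 8 with hF
  have hB4 : 0 ≤ B ^ 4 := by positivity
  have ha8 : (3 : ℤ) ^ 8 ≤ a ^ 8 := pow_le_pow_left₀ (by norm_num) ha3 8
  have hFge : a ^ 8 ≤ F := by
    have h1 : F = a ^ 8 + 12 * (B ^ 4 * (a ^ 4 - B ^ 4)) := by rw [hF]; ring
    have h2 : 0 ≤ B ^ 4 * (a ^ 4 - B ^ 4) := mul_nonneg hB4 (by linarith)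
    linarith
  have hF3 : 3 < F := by
    have : (3 : ℤ) < 3 ^ 8 := by norm_num
    linarith
  have hodd : ¬ (2 : ℤ) ∣ F := by
    intro h
    apply ha
    have h1 : (2 : ℤ) ∣ a ^ 8 := by
      have h2 : a ^ 8 = F - 2 * (6 * a ^ 4 * B ^ 4 - 6 * B ^ 8) := by rw [hF]; ring
      rw [h2]
      exact dvd_sub h (Dvd.intro _ rfl)
    exact Int.prime_two.dvd_of_dvd_pow h1
  have h9 : ¬ (9 : ℤ) ∣ F := by
    intro h
    have h3F : (3 : ℤ) ∣ F := dvd_trans (by norm_num) h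
    have h3a8 : (3 : ℤ) ∣ a ^ 8 := by
      have h2 : a ^ 8 = F - 3 * (4 * a ^ 4 * B ^ 4 - 4 * B ^ 8) := by rw [hF]; ring
      rw [h2]
      exact dvd_sub h3F (Dvd.intro _ rfl)
    have h3a : (3 : ℤ) ∣ a := Int.prime_three.dvd_of_dvd_pow h3a8
    have h3B : ¬ (3 : ℤ) ∣ B := by
      intro hB
      have := hcop.isUnit_of_dvd' h3a hB
      rw [Int.isUnit_iff] at this
      omega
    obtain ⟨k, hk⟩ := PrimA_mod3 B h3B
    obtain ⟨c, hc⟩ := h3a
    obtain ⟨d, hd⟩ := h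
    have e1 : F = 9 * (729 * c ^ 8 + 108 * c ^ 4 * B ^ 4) - 12 * B ^ 8 := by
      rw [hF, hc]; ring
    rw [hk] at e1
    omega
  obtain ⟨n, hn⟩ : ∃ n : ℕ, (n : ℤ) = F := ⟨F.toNat, Int.toNat_of_nonneg (by linarith)⟩
  obtain ⟨q, hq, hqn, hq2, hq3⟩ := PrimA_nat n (by omega)
    (fun h => hodd (by rw [← hn]; exact_mod_cast h))
    (fun h => h9 (by rw [← hn]; exact_mod_cast h))
  exact ⟨q, hq, by rw [← hn]; exact_mod_cast hqn, hq2, hq3⟩

/-- the arithmetic facts on `q` -/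
private lemma PrimA_facts (a B b : ℤ) (q : ℕ) (hq : q.Prime) (hcop : IsCoprime a B)
    (hb : a ^ 4 - 2 * B ^ 4 = b ^ 2)
    (hF : (q : ℤ) ∣ (a ^ 8 + 12 * a ^ 4 * B ^ 4 - 12 * B ^ 8)) (hq2 : q ≠ 2) (hq3 : q ≠ 3) :
    ¬ (q : ℤ) ∣ a ∧ ¬ (q : ℤ) ∣ B ∧ ¬ (q : ℤ) ∣ b ∧
      ¬ (q : ℤ) ∣ (3 * a ^ 8 - 12 * a ^ 4 * B ^ 4 - 4 * B ^ 8) ∧ ¬ (q : ℤ) ∣ 2 := by
  have hqp : Prime (q : ℤ) := Nat.prime_iff_prime_int.1 hq
  have hn2 : ¬ (q : ℤ) ∣ 2 := by
    intro h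
    have h' : q ∣ 2 := by exact_mod_cast h
    exact hq2 ((Nat.prime_dvd_prime_iff_eq hq Nat.prime_two).1 h')
  have hn3 : ¬ (q : ℤ) ∣ 3 := by
    intro h
    have h' : q ∣ 3 := by exact_mod_cast h
    exact hq3 ((Nat.prime_dvd_prime_iff_eq hq Nat.prime_three).1 h')
  have hboth : ¬ ((q : ℤ) ∣ a ∧ (q : ℤ) ∣ B) := by
    rintro ⟨h1, h2⟩
    exact hqp.not_unit (hcop.isUnit_of_dvd' h1 h2)
  have hn4 : ¬ (q : ℤ) ∣ 4 := by
    intro h
    have : (4 : ℤ) = 2 * 2 := by norm_num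
    rw [this] at h
    rcases hqp.dvd_or_dvd h with h | h <;> exact hn2 h
  have hn8 : ¬ (q : ℤ) ∣ 8 := by
    intro h
    have : (8 : ℤ) = 4 * 2 := by norm_num
    rw [this] at h
    rcases hqp.dvd_or_dvd h with h | h
    · exact hn4 h
    · exact hn2 h
  have hn12 : ¬ (q : ℤ) ∣ 12 := by
    intro h
    have : (12 : ℤ) = 4 * 3 := by norm_num
    rw [this] at h
    rcases hqp.dvd_or_dvd h with h | h
    · exact hn4 h
    · exact hn3 h
  have hn16 : ¬ (q : ℤ) ∣ 16 := by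
    intro h
    have : (16 : ℤ) = 8 * 2 := by norm_num
    rw [this] at h
    rcases hqp.dvd_or_dvd h with h | h
    · exact hn8 h
    · exact hn2 h
  have ha : ¬ (q : ℤ) ∣ a := by
    intro h
    have h1 : (q : ℤ) ∣ 12 * B ^ 8 := by
      have e : 12 * B ^ 8 = a * (a ^ 7 + 12 * a ^ 3 * B ^ 4) -
        (a ^ 8 + 12 * a ^ 4 * B ^ 4 - 12 * B ^ 8) := by ring
      rw [e]
      exact dvd_sub (h.mul_right _) hF
    rcases hqp.dvd_or_dvd h1 with h2 | h2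
    · exact hn12 h2
    · exact hboth ⟨h, hqp.dvd_of_dvd_pow h2⟩
  have hB : ¬ (q : ℤ) ∣ B := by
    intro h
    have h1 : (q : ℤ) ∣ a ^ 8 := by
      have e : a ^ 8 = (a ^ 8 + 12 * a ^ 4 * B ^ 4 - 12 * B ^ 8) -
        B * (12 * a ^ 4 * B ^ 3 - 12 * B ^ 7) := by ring
      rw [e]
      exact dvd_sub hF (h.mul_right _)
    exact ha (hqp.dvd_of_dvd_pow h1)
  refine ⟨ha, hB, ?_, ?_, hn2⟩
  · intro h
    have h1 : (q : ℤ) ∣ 4 * a ^ 8 := by
      have e : 4 * a ^ 8 = (a ^ 8 + 12 * a ^ 4 * B ^ 4 - 12 * B ^ 8) +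
          (a ^ 4 - 2 * B ^ 4) * (3 * a ^ 4 - 6 * B ^ 4) := by ring
      have h0 : (q : ℤ) ∣ (a ^ 4 - 2 * B ^ 4) * (3 * a ^ 4 - 6 * B ^ 4) := by
        rw [hb, pow_two]
        exact (h.mul_right _).mul_right _
      rw [e]
      exact dvd_add hF h0
    rcases hqp.dvd_or_dvd h1 with h2 | h2
    · exact hn4 h2
    · exact ha (hqp.dvd_of_dvd_pow h2)
  · intro h
    have h1 : (q : ℤ) ∣ 16 * B ^ 4 * (3 * a ^ 4 - 2 * B ^ 4) := by
      have e : 16 * B ^ 4 * (3 * a ^ 4 - 2 * B ^ 4) =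
        3 * (a ^ 8 + 12 * a ^ 4 * B ^ 4 - 12 * B ^ 8) -
          (3 * a ^ 8 - 12 * a ^ 4 * B ^ 4 - 4 * B ^ 8) := by ring
      rw [e]
      exact dvd_sub (hF.mul_left _) h
    rcases hqp.dvd_or_dvd h1 with h2 | h2
    · rcases hqp.dvd_or_dvd h2 with h3 | h3
      · exact hn16 h3
      · exact hB (hqp.dvd_of_dvd_pow h3)
    · have h4 : (q : ℤ) ∣ 8 * a ^ 8 := by
        have e : 8 * a ^ 8 = (3 * a ^ 4 - 2 * B ^ 4) * (3 * a ^ 4 + 6 * B ^ 4) -
          (a ^ 8 + 12 * a ^ 4 * B ^ 4 - 12 * B ^ 8) := by ring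
        rw [e]
        exact dvd_sub (h2.mul_right _) hF
      rcases hqp.dvd_or_dvd h4 with h5 | h5
      · exact hn8 h5
      · exact ha (hqp.dvd_of_dvd_pow h5)

private lemma PrimA_cop (x : ℚ) : IsCoprime (x.den : ℤ) x.num := by
  rw [Int.isCoprime_iff_gcd_eq_one]
  have := x.reduced
  rw [Int.gcd_comm]
  simpa [Int.gcd, Nat.Coprime] using this

theorem prim3 (P : Pt) (hP : P.u ≠ 0) :
    ∃ q : ℕ, q.Prime ∧ q ∣ (P + P + P).u.den ∧ ¬ inK q (P + P) := by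
  obtain ⟨b, hb, hvb, hodd, hev⟩ := coords P
  have h3 := three_le_den P hP
  have hcop := PrimA_cop P.u
  have hDbl := dbl_u P
  have hTpl := tpl_u P
  have hPhi := Phi_pos P
  set a : ℤ := (P.u.den : ℤ) with hadef
  set B : ℤ := P.u.num with hBdef
  have ha3 : 3 ≤ a := by rw [hadef]; exact_mod_cast h3
  have hle : 2 * B ^ 4 ≤ a ^ 4 := by
    have := sq_nonneg b
    linarith
  obtain ⟨q, hq, hqF, hq2, hq3⟩ := PrimA_int a B hcop hle ha3 hodd
  obtain ⟨hqa, hqB, hqb, hqPsi, hqtwo⟩ := PrimA_facts a B b q hq hcop hb hqF hq2 hq3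
  have hqp : Prime (q : ℤ) := Nat.prime_iff_prime_int.1 hq
  have haQ : (a : ℚ) ≠ 0 := by
    have : a ≠ 0 := by omega
    exact_mod_cast this
  have huq : P.u = (B : ℚ) / (a : ℚ) := by
    rw [hBdef, hadef]
    push_cast
    exact (Rat.num_div_den P.u).symm
  have hvq : P.v = (b : ℚ) / (a : ℚ) ^ 2 := by
    rw [eq_div_iff (pow_ne_zero 2 haQ), ← hvb, hadef]
    push_cast
    ring
  refine ⟨q, hq, ?_, ?_⟩
  · -- the denominator of 3 P
    set x := (P + P + P).u with hx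
    have hxx : x * (x.den : ℚ) = (x.num : ℚ) := Rat.mul_den_eq_num x
    have hFq : ((a : ℚ) ^ 8 + 12 * (a : ℚ) ^ 4 * (B : ℚ) ^ 4 - 12 * (B : ℚ) ^ 8) =
        (1 + 12 * P.u ^ 4 - 12 * P.u ^ 8) * (a : ℚ) ^ 8 := by
      rw [huq]
      field_simp
    have hx2 : x * ((a : ℚ) * ((a : ℚ) ^ 8 + 12 * (a : ℚ) ^ 4 * (B : ℚ) ^ 4 -
        12 * (B : ℚ) ^ 8)) =
        (B : ℚ) * (3 * (a : ℚ) ^ 8 - 12 * (a : ℚ) ^ 4 * (B : ℚ) ^ 4 - 4 * (B : ℚ) ^ 8) := by
      rw [hFq, hTpl]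
      have hne : (1 + 12 * P.u ^ 4 - 12 * P.u ^ 8) ≠ 0 := by linarith
      have e1 : P.u * (3 - 12 * P.u ^ 4 - 4 * P.u ^ 8) / (1 + 12 * P.u ^ 4 - 12 * P.u ^ 8) *
          ((a : ℚ) * ((1 + 12 * P.u ^ 4 - 12 * P.u ^ 8) * (a : ℚ) ^ 8)) =
          (P.u * a) * ((3 - 12 * P.u ^ 4 - 4 * P.u ^ 8) * (a : ℚ) ^ 8) := by
        rw [div_mul_eq_mul_div, div_eq_iff hne]
        ring
      rw [e1, huq]
      field_simp
    have hint : x.num * (a * (a ^ 8 + 12 * a ^ 4 * B ^ 4 - 12 * B ^ 8)) =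
        B * (3 * a ^ 8 - 12 * a ^ 4 * B ^ 4 - 4 * B ^ 8) * (x.den : ℤ) := by
      have : (x.num : ℚ) * ((a : ℚ) * ((a : ℚ) ^ 8 + 12 * (a : ℚ) ^ 4 * (B : ℚ) ^ 4 -
        12 * (B : ℚ) ^ 8)) =
        (B : ℚ) * (3 * (a : ℚ) ^ 8 - 12 * (a : ℚ) ^ 4 * (B : ℚ) ^ 4 - 4 * (B : ℚ) ^ 8) *
          (x.den : ℚ) := by
        rw [← hx2, ← hxx]
        ring
      exact_mod_cast this
    have hdv : (q : ℤ) ∣ B * (3 * a ^ 8 - 12 * a ^ 4 * B ^ 4 - 4 * B ^ 8) * (x.den : ℤ) := by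
      rw [← hint]
      exact (hqF.mul_left _).mul_left _
    rcases hqp.dvd_or_dvd hdv with h | h
    · rcases hqp.dvd_or_dvd h with h | h
      · exact absurd h hqB
      · exact absurd h hqPsi
    · exact_mod_cast h
  · -- the numerator of 2 P
    intro hK
    unfold inK at hK
    set x := (P + P).u with hx
    have hxx : x * (x.den : ℚ) = (x.num : ℚ) := Rat.mul_den_eq_num x
    have hx2 : x * ((a : ℚ) ^ 4 + 2 * (B : ℚ) ^ 4) = 2 * a * B * b := by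
      rw [hDbl, huq, hvq]
      have hne : (1 + 2 * ((B : ℚ) / a) ^ 4) ≠ 0 := by positivity
      rw [div_mul_eq_mul_div, div_eq_iff hne]
      field_simp
    have hint : x.num * (a ^ 4 + 2 * B ^ 4) = 2 * a * B * b * (x.den : ℤ) := by
      have : (x.num : ℚ) * ((a : ℚ) ^ 4 + 2 * (B : ℚ) ^ 4) =
          2 * (a : ℚ) * (B : ℚ) * (b : ℚ) * (x.den : ℚ) := by
        rw [← hx2, ← hxx]
        ring
      exact_mod_cast this
    have hdv : (q : ℤ) ∣ 2 * a * B * b * (x.den : ℤ) := by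
      rw [← hint]
      exact hK.mul_right _
    rcases hqp.dvd_or_dvd hdv with h | h
    · rcases hqp.dvd_or_dvd h with h | h
      · rcases hqp.dvd_or_dvd h with h | h
        · rcases hqp.dvd_or_dvd h with h | h
          · exact hqtwo h
          · exact hqa h
        · exact hqB h
      · exact hqb h
    · exact hqp.not_unit ((PrimA_cop x).isUnit_of_dvd' h hK)

/-- `u (2 P) ≠ 0` if `u (P) ≠ 0`: `v ≠ 0`, since `2 u ^ 4 = 1` has no rational solution (or: `b` is odd) -/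
theorem dbl_ne (P : Pt) (hP : P.u ≠ 0) : (P + P).u ≠ 0 := by
  obtain ⟨b, hb, hvb, hodd, hev⟩ := coords P
  have hv : P.v ≠ 0 := by
    intro h0
    rw [h0, zero_mul] at hvb
    have hb0 : b = 0 := by exact_mod_cast hvb.symm
    apply hodd
    have h1 : (P.u.den : ℤ) ^ 4 = 2 * P.u.num ^ 4 := by
      rw [hb0] at hb
      linarith
    exact Int.prime_two.dvd_of_dvd_pow (Dvd.intro _ h1.symm)
  rw [dbl_u]
  have : (1 + 2 * P.u ^ 4) ≠ 0 := by positivity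
  exact div_ne_zero (mul_ne_zero (mul_ne_zero two_ne_zero hP) hv) this

/-- `u (3 P) ≠ 0` if `u (P) ≠ 0`: `Ψ` is odd -/
theorem tpl_ne (P : Pt) (hP : P.u ≠ 0) : (P + P + P).u ≠ 0 := by
  obtain ⟨b, hb, hvb, hodd, hev⟩ := coords P
  have hPhi := Phi_pos P
  have hne : (1 + 12 * P.u ^ 4 - 12 * P.u ^ 8) ≠ 0 := by linarith
  have hPsi : (3 - 12 * P.u ^ 4 - 4 * P.u ^ 8) ≠ 0 := by
    intro h0
    apply hodd
    have hk : P.u * (P.u.den : ℚ) = (P.u.num : ℚ) := Rat.mul_den_eq_num P.u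
    have h1 : 3 * (P.u.den : ℤ) ^ 8 - 12 * (P.u.den : ℤ) ^ 4 * P.u.num ^ 4 -
        4 * P.u.num ^ 8 = 0 := by
      have : 3 * (P.u.den : ℚ) ^ 8 - 12 * (P.u.den : ℚ) ^ 4 * (P.u.num : ℚ) ^ 4 -
        4 * (P.u.num : ℚ) ^ 8 = 0 := by
        rw [← hk]
        have e : 3 * (P.u.den : ℚ) ^ 8 - 12 * (P.u.den : ℚ) ^ 4 * (P.u * P.u.den) ^ 4 -
          4 * (P.u * P.u.den) ^ 8 = (P.u.den : ℚ) ^ 8 * (3 - 12 * P.u ^ 4 - 4 * P.u ^ 8) := by
          ring
        rw [e, h0, mul_zero]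
      exact_mod_cast this
    have h2 : (2 : ℤ) ∣ 3 * (P.u.den : ℤ) ^ 8 := by
      refine ⟨6 * (P.u.den : ℤ) ^ 4 * P.u.num ^ 4 + 2 * P.u.num ^ 8, ?_⟩
      linarith
    rcases Int.prime_two.dvd_or_dvd h2 with h3 | h3
    · norm_num at h3
    · exact Int.prime_two.dvd_of_dvd_pow h3
  rw [tpl_u]
  exact div_ne_zero (mul_ne_zero hP hPsi) hne

end BQ60
end

section

/-!
# MP_afa64c_lc: the probability estimate

Proof. Let `μ` be the product measure. For a finite set `s` of coordinates and `c : ℕ → Bool`, the cylinder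
`{W | ∀ i ∈ s, W i = c i}` has measure `2 ^ (- card s)` (`MeasureTheory.Measure.infinitePi_pi` or
`infinitePi_cylinder`, the uniform measure on `Bool` gives 1/2 to each point).
Let `C = {W | W (k 0 0) = false ∧ W (k 1 0) = false}`, `μ C = 1/4`. For `e ≥ 2` and `f` let `A e f` be the set of `W ∈ C` with `W (k e j) = true`
for all `j ≤ f` and `W (k i (f+1)) = true` for all `i < e`. The `e + f + 3` coordinates are different (`k` injective, `e ≥ 2`, `f + 1 ≥ 1`), so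
`μ (A e f) = 2 ^ (-(e + f + 3))`. The set of the theorem is `C \ ⋃ A e f`, so its measure is at least
`1/4 - ∑_{e ≥ 2} ∑_f 2 ^ (-(e+f+3)) = 1/4 - 1/8 = 1/8`.
(It is enough to prove `> 0`; for instance, if the set were null, then `1/4 = μ C ≤ ∑ μ (A e f) = 1/8`.)
-/

set_option autoImplicit false

namespace BQ60

open MeasureTheory

/-- the product measure -/
noncomputable abbrev Mu : Measure (ℕ → Bool) := Measure.infinitePi (fun _ : ℕ => (PMF.uniformOfFintype Bool).toMeasure)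

theorem Meas_cyl (s : Finset ℕ) (c : ℕ → Bool) :
    Mu {W : ℕ → Bool | ∀ i ∈ s, W i = c i} = (2 : ENNReal)⁻¹ ^ s.card := by
  have e : {W : ℕ → Bool | ∀ i ∈ s, W i = c i} = Set.pi (s : Set ℕ) (fun i => {c i}) := by
    ext W
    simp [Set.pi]
  rw [e]
  unfold Mu
  rw [Measure.infinitePi_pi _ (fun i _ => measurableSet_singleton _)]
  have h : ∀ i ∈ s, (PMF.uniformOfFintype Bool).toMeasure ({c i} : Set Bool) = (2 : ENNReal)⁻¹ := by
    intro i _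
    rw [PMF.toMeasure_apply_singleton _ _ (measurableSet_singleton _), PMF.uniformOfFintype_apply]
    simp
  rw [Finset.prod_congr rfl h, Finset.prod_const]

theorem Meas_cylk {k : ℕ × ℕ → ℕ} (hk : Function.Injective k) (P : Finset (ℕ × ℕ)) (c : ℕ × ℕ → Bool) :
    Mu {W : ℕ → Bool | ∀ p ∈ P, W (k p) = c p} = (2 : ENNReal)⁻¹ ^ P.card := by
  classical
  have e : {W : ℕ → Bool | ∀ p ∈ P, W (k p) = c p} =
      {W : ℕ → Bool | ∀ i ∈ P.image k, W i = Function.extend k c (fun _ => false) i} := by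
    ext W
    simp only [Set.mem_ofPred_eq, Finset.mem_image, forall_exists_index, and_imp]
    constructor
    · rintro h i p hp rfl
      rw [hk.extend_apply]
      exact h p hp
    · intro h p hp
      have := h (k p) p hp rfl
      rw [hk.extend_apply] at this
      exact this
  rw [e, Meas_cyl, Finset.card_image_of_injective _ hk]

/-- the coordinates of the event `A e f` -/
def MeasP (e f : ℕ) : Finset (ℕ × ℕ) :=
  (({(0, 0), (1, 0)} : Finset (ℕ × ℕ)) ∪ (Finset.range (f + 1)).image fun j => (e, j)) ∪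
    (Finset.range e).image fun i => (i, f + 1)

/-- the values of the coordinates -/
def MeasC (p : ℕ × ℕ) : Bool := decide (p.2 ≠ 0 ∨ 2 ≤ p.1)

theorem Meas_card {e f : ℕ} (he : 2 ≤ e) : (MeasP e f).card = e + f + 3 := by
  unfold MeasP
  rw [Finset.card_union_of_disjoint, Finset.card_union_of_disjoint, Finset.card_image_of_injective,
    Finset.card_image_of_injective, Finset.card_range, Finset.card_range]
  · have : ({(0, 0), (1, 0)} : Finset (ℕ × ℕ)).card = 2 := by decide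
    rw [this]; ring
  · intro x y h
    exact (Prod.mk.inj h).1
  · intro x y h
    exact (Prod.mk.inj h).2
  · rw [Finset.disjoint_left]
    intro p hp hq
    simp only [Finset.mem_insert, Finset.mem_singleton, Finset.mem_image, Finset.mem_range] at hp hq
    obtain ⟨j, hj, rfl⟩ := hq
    rcases hp with h | h
    · have := (Prod.mk.inj h).1; omega
    · have := (Prod.mk.inj h).1; omega
  · rw [Finset.disjoint_left]
    intro p hp hq
    simp only [Finset.mem_union, Finset.mem_insert, Finset.mem_singleton, Finset.mem_image, Finset.mem_range] at hp hq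
    obtain ⟨i, hi, rfl⟩ := hq
    rcases hp with (h | h) | ⟨j, hj, h⟩
    · have := (Prod.mk.inj h).2; omega
    · have := (Prod.mk.inj h).2; omega
    · have := (Prod.mk.inj h).2; omega

theorem Meas_sum : ∑' e : ℕ, ∑' f : ℕ, (2 : ENNReal)⁻¹ ^ (e + 2 + f + 3) = 8⁻¹ := by
  have h : ∀ e f : ℕ, (2 : ENNReal)⁻¹ ^ (e + 2 + f + 3) = (2 : ENNReal)⁻¹ ^ 5 * (2 : ENNReal)⁻¹ ^ e * (2 : ENNReal)⁻¹ ^ f := by
    intro e f
    rw [← pow_add, ← pow_add]
    congr 1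
    ring
  simp only [h, ENNReal.tsum_mul_left, ENNReal.tsum_geometric, ENNReal.one_sub_inv_two, inv_inv,
    ENNReal.tsum_mul_right]
  have e1 : (8 : ENNReal)⁻¹ = (2 : ENNReal)⁻¹ ^ 3 := by
    rw [← ENNReal.inv_pow]; norm_num
  have e2 : (2 : ENNReal)⁻¹ * 2 = 1 := ENNReal.inv_mul_cancel (by norm_num) (by norm_num)
  rw [e1]
  calc (2 : ENNReal)⁻¹ ^ 5 * 2 * 2 = (2 : ENNReal)⁻¹ ^ 3 * ((2 : ENNReal)⁻¹ * 2) * ((2 : ENNReal)⁻¹ * 2) := by ring
    _ = (2 : ENNReal)⁻¹ ^ 3 := by rw [e2]; ring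

theorem meas_pos (k : ℕ → ℕ → ℕ) (hk : ∀ i j i' j', k i j = k i' j' → i = i' ∧ j = j') :
    0 < (MeasureTheory.Measure.infinitePi
          (fun _ : ℕ => (PMF.uniformOfFintype Bool).toMeasure))
        {W : ℕ → Bool | W (k 0 0) = false ∧ W (k 1 0) = false ∧
          ∀ e f : ℕ, 2 ≤ e → (∃ j ≤ f, W (k e j) = false) ∨ (∃ i < e, W (k i (f + 1)) = false)} := by
  rw [pos_iff_ne_zero]
  intro h0
  set k' : ℕ × ℕ → ℕ := fun p => k p.1 p.2 with hk'
  have hinj : Function.Injective k' := by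
    intro p q h
    have := hk _ _ _ _ h
    exact Prod.ext this.1 this.2
  have hC : Mu {W : ℕ → Bool | ∀ p ∈ ({(0, 0), (1, 0)} : Finset (ℕ × ℕ)), W (k' p) = false} = (2 : ENNReal)⁻¹ ^ 2 :=
    Meas_cylk hinj {(0, 0), (1, 0)} fun _ => false
  have hA : ∀ e f : ℕ, Mu {W : ℕ → Bool | ∀ p ∈ MeasP (e + 2) f, W (k' p) = MeasC p} =
      (2 : ENNReal)⁻¹ ^ (e + 2 + f + 3) := by
    intro e f
    rw [Meas_cylk hinj, Meas_card (by omega)]
  have hsub : {W : ℕ → Bool | ∀ p ∈ ({(0, 0), (1, 0)} : Finset (ℕ × ℕ)), W (k' p) = false} ⊆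
      {W : ℕ → Bool | W (k 0 0) = false ∧ W (k 1 0) = false ∧
          ∀ e f : ℕ, 2 ≤ e → (∃ j ≤ f, W (k e j) = false) ∨ (∃ i < e, W (k i (f + 1)) = false)} ∪
      ⋃ e : ℕ, ⋃ f : ℕ, {W : ℕ → Bool | ∀ p ∈ MeasP (e + 2) f, W (k' p) = MeasC p} := by
    intro W hW
    have w0 : W (k 0 0) = false := hW (0, 0) (by simp)
    have w1 : W (k 1 0) = false := hW (1, 0) (by simp)
    by_cases hc : ∀ e f : ℕ, 2 ≤ e → (∃ j ≤ f, W (k e j) = false) ∨ (∃ i < e, W (k i (f + 1)) = false)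
    · exact Or.inl ⟨w0, w1, hc⟩
    · right
      push Not at hc
      obtain ⟨e, f, he, h1, h2⟩ := hc
      rw [Set.mem_iUnion]
      refine ⟨e - 2, ?_⟩
      rw [Set.mem_iUnion]
      refine ⟨f, ?_⟩
      have e2 : e - 2 + 2 = e := by omega
      rw [e2]
      intro p hp
      unfold MeasP at hp
      simp only [Finset.mem_union, Finset.mem_insert, Finset.mem_singleton, Finset.mem_image, Finset.mem_range] at hp
      rcases hp with ((rfl | rfl) | ⟨j, hj, rfl⟩) | ⟨i, hi, rfl⟩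
      · exact w0
      · exact w1
      · have h3 := h1 j (by omega)
        have h4 : MeasC (e, j) = true := by
          unfold MeasC; simp [he]
        rw [h4]
        simpa using h3
      · have h3 := h2 i hi
        have h4 : MeasC (i, f + 1) = true := by
          unfold MeasC; simp
        rw [h4]
        simpa using h3
  have h1 := measure_mono (μ := Mu) hsub
  rw [hC] at h1
  have h2 := h1.trans (measure_union_le _ _)
  have h3 : Mu {W : ℕ → Bool | W (k 0 0) = false ∧ W (k 1 0) = false ∧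
          ∀ e f : ℕ, 2 ≤ e → (∃ j ≤ f, W (k e j) = false) ∨ (∃ i < e, W (k i (f + 1)) = false)} = 0 := h0
  rw [h3, zero_add] at h2
  have h4 : Mu (⋃ e : ℕ, ⋃ f : ℕ, {W : ℕ → Bool | ∀ p ∈ MeasP (e + 2) f, W (k' p) = MeasC p}) ≤ 8⁻¹ := by
    refine (measure_iUnion_le _).trans ?_
    refine (ENNReal.tsum_le_tsum fun e => measure_iUnion_le _).trans ?_
    rw [← Meas_sum]
    refine ENNReal.tsum_le_tsum fun e => ENNReal.tsum_le_tsum fun f => ?_
    rw [hA]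
  have h5 := h2.trans h4
  rw [← ENNReal.inv_pow, ENNReal.inv_le_inv] at h5
  norm_num at h5

end BQ60
end
end
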