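import Mathlib
import Pool.Agent.Lib.MP_afa64c_lc.Meas

section

/-!
# MP_afa64c_lc: the polynomial in eight variables
-/

set_option autoImplicit false

namespace BQ60

/-- the system: `x 0 = a`, `x 1 = b`, `B = 1 + x 2 ^ 2 + x 3 ^ 2 + x 4 ^ 2 + x 5 ^ 2`, `x 6 = w_2`, `x 7 = w_3` -/
structure Sys (x : Fin 8 → ℚ) (B : ℚ) : Prop where
  hB : B = 1 + x 2 ^ 2 + x 3 ^ 2 + x 4 ^ 2 + x 5 ^ 2
  h1 : x 0 ^ 4 - 2 * B ^ 4 = x 1 ^ 2
  h2 : x 6 * (x 0 ^ 2 * x 1) = x 0 ^ 4 + 2 * B ^ 4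
  h3 : x 7 * (3 * x 0 ^ 8 - 12 * x 0 ^ 4 * B ^ 4 - 4 * B ^ 8) =
    3 * (x 0 ^ 8 + 12 * x 0 ^ 4 * B ^ 4 - 12 * B ^ 8)

open MvPolynomial in
/-- the polynomial: a sum of three squares -/
noncomputable def poly : MvPolynomial (Fin 8) ℤ :=
  let B : MvPolynomial (Fin 8) ℤ := 1 + X 2 ^ 2 + X 3 ^ 2 + X 4 ^ 2 + X 5 ^ 2
  (X 0 ^ 4 - 2 * B ^ 4 - X 1 ^ 2) ^ 2
    + (X 6 * (X 0 ^ 2 * X 1) - (X 0 ^ 4 + 2 * B ^ 4)) ^ 2
    + (X 7 * (3 * X 0 ^ 8 - 12 * X 0 ^ 4 * B ^ 4 - 4 * B ^ 8)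
      - 3 * (X 0 ^ 8 + 12 * X 0 ^ 4 * B ^ 4 - 12 * B ^ 8)) ^ 2

private lemma three_sq (p q r : ℚ) : p ^ 2 + q ^ 2 + r ^ 2 = 0 ↔ p = 0 ∧ q = 0 ∧ r = 0 := by
  constructor
  · intro h
    have a := sq_nonneg p
    have b := sq_nonneg q
    have c := sq_nonneg r
    refine ⟨?_, ?_, ?_⟩
    · exact pow_eq_zero_iff (two_ne_zero) |>.1 (le_antisymm (by linarith) a)
    · exact pow_eq_zero_iff (two_ne_zero) |>.1 (le_antisymm (by linarith) b)
    · exact pow_eq_zero_iff (two_ne_zero) |>.1 (le_antisymm (by linarith) c)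
  · rintro ⟨rfl, rfl, rfl⟩
    norm_num

theorem aeval_poly (x : Fin 8 → ℚ) :
    MvPolynomial.aeval x poly = 0 ↔
      Sys x (1 + x 2 ^ 2 + x 3 ^ 2 + x 4 ^ 2 + x 5 ^ 2) := by
  have e : MvPolynomial.aeval x poly = 
      (x 0 ^ 4 - 2 * (1 + x 2 ^ 2 + x 3 ^ 2 + x 4 ^ 2 + x 5 ^ 2) ^ 4 - x 1 ^ 2) ^ 2
    + (x 6 * (x 0 ^ 2 * x 1) - (x 0 ^ 4 + 2 * (1 + x 2 ^ 2 + x 3 ^ 2 + x 4 ^ 2 + x 5 ^ 2) ^ 4)) ^ 2
    + (x 7 * (3 * x 0 ^ 8 - 12 * x 0 ^ 4 * (1 + x 2 ^ 2 + x 3 ^ 2 + x 4 ^ 2 + x 5 ^ 2) ^ 4 - 4 * (1 + x 2 ^ 2 + x 3 ^ 2 + x 4 ^ 2 + x 5 ^ 2) ^ 8)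
      - 3 * (x 0 ^ 8 + 12 * x 0 ^ 4 * (1 + x 2 ^ 2 + x 3 ^ 2 + x 4 ^ 2 + x 5 ^ 2) ^ 4 - 12 * (1 + x 2 ^ 2 + x 3 ^ 2 + x 4 ^ 2 + x 5 ^ 2) ^ 8)) ^ 2 := by
    simp only [poly, map_add, map_sub, map_mul, map_pow, MvPolynomial.aeval_X, map_one, map_ofNat]
  rw [e, three_sq]
  constructor
  · rintro ⟨h1, h2, h3⟩
    exact ⟨rfl, sub_eq_zero.1 h1, sub_eq_zero.1 h2, sub_eq_zero.1 h3⟩
  · intro h
    exact ⟨sub_eq_zero.2 h.h1, sub_eq_zero.2 h.h2, sub_eq_zero.2 h.h3⟩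

end BQ60
end

section

/-!
# MP_afa64c_lc: adding the generator G = (2/3, 7/9)

With `a = P.u.den`, `B = P.u.num` and `b` from `coords` (so `P.u = B / a`, `P.v = b / a ^ 2`):
`(P + G).u = (7 a B + 6 b) / (9 a ^ 2 + 8 B ^ 2)` and `(P - G).u = (7 a B - 6 b) / (9 a ^ 2 + 8 B ^ 2)`.
-/

set_option autoImplicit false

namespace BQ60

namespace Pt

private lemma gb_num_mul (q : ℚ) (x N : ℤ) (hN : N ≠ 0) (h : q = (x : ℚ) / (N : ℚ)) :
    q.num * N = x * (q.den : ℤ) := by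
  have hN' : (N : ℚ) ≠ 0 := by exact_mod_cast hN
  have hd : (q.den : ℚ) ≠ 0 := by exact_mod_cast q.den_ne_zero
  have h1 : (q.num : ℚ) / (q.den : ℚ) = (x : ℚ) / (N : ℚ) := by rw [Rat.num_div_den, h]
  rw [div_eq_div_iff hd hN'] at h1
  exact_mod_cast h1

private lemma gb_four_dvd (q : ℚ) (x N : ℤ) (hN : ¬ (2 : ℤ) ∣ N) (h : q = (x : ℚ) / (N : ℚ))
    (hx : (4 : ℤ) ∣ x) : (4 : ℤ) ∣ q.num := by
  have hN0 : N ≠ 0 := by rintro rfl; exact hN (dvd_zero 2)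
  have h1 := gb_num_mul q x N hN0 h
  have h2 : (4 : ℤ) ∣ q.num * N := by rw [h1]; exact Dvd.dvd.mul_right hx _
  have h3 : IsCoprime (2 : ℤ) N := (Int.prime_two.coprime_iff_not_dvd).2 hN
  have h4 : IsCoprime (4 : ℤ) N := by
    have : (4 : ℤ) = 2 ^ 2 := by norm_num
    rw [this]
    exact h3.pow_left
  exact h4.dvd_of_dvd_mul_right h2

private lemma gb_den_mul_gcd (q : ℚ) (x N : ℤ) (hN : N ≠ 0) (h : q = (x : ℚ) / (N : ℚ)) :
    q.den * Int.gcd N x = N.natAbs := by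
  have h1 := gb_num_mul q x N hN h
  have hc : IsCoprime (q.den : ℤ) q.num := by
    rw [Int.isCoprime_iff_gcd_eq_one]
    have := q.reduced
    rw [Nat.Coprime] at this
    rw [Int.gcd_comm, Int.gcd_eq_natAbs, Int.natAbs_natCast]
    exact this
  have h2 : (q.den : ℤ) ∣ N := by
    apply hc.dvd_of_dvd_mul_left
    rw [h1]
    exact Dvd.intro_left _ rfl
  obtain ⟨g, hg⟩ := h2
  have hd : (q.den : ℤ) ≠ 0 := by exact_mod_cast q.den_ne_zero
  have hx : x = q.num * g := by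
    apply mul_right_cancel₀ hd
    rw [← h1, hg]; ring
  rw [hg, hx]
  have h3 : Int.gcd ((q.den : ℤ) * g) (q.num * g) = g.natAbs := by
    rw [Int.gcd_mul_right, Int.isCoprime_iff_gcd_eq_one.1 hc, one_mul]
  rw [h3, Int.natAbs_mul, Int.natAbs_natCast]

private lemma gb_u (P : Pt) (b : ℤ) (hb : P.v * (P.u.den : ℚ) ^ 2 = b) :
    (P + G).u = ((7 * (P.u.den : ℤ) * P.u.num + 6 * b : ℤ) : ℚ) /
      ((9 * (P.u.den : ℤ) ^ 2 + 8 * P.u.num ^ 2 : ℤ) : ℚ) := by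
  have hd : (P.u.den : ℚ) ≠ 0 := by exact_mod_cast P.u.den_ne_zero
  have hu : P.u = (P.u.num : ℚ) / (P.u.den : ℚ) := (Rat.num_div_den _).symm
  have hv : P.v = (b : ℚ) / (P.u.den : ℚ) ^ 2 := by
    rw [eq_div_iff (pow_ne_zero 2 hd)]; exact hb
  rw [add_u, G_u, G_v]
  push_cast
  generalize hA : (P.u.den : ℚ) = A at *
  generalize hB : (P.u.num : ℚ) = B at *
  rw [hu, hv]
  have hp : 0 < 9 * A ^ 2 + 8 * B ^ 2 := by positivity
  have hq : 0 < 1 + 2 * (B / A) ^ 2 * (2 / 3) ^ 2 := by positivity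
  rw [div_eq_div_iff hq.ne' hp.ne']
  field_simp
  ring

private lemma gb_u' (P : Pt) (b : ℤ) (hb : P.v * (P.u.den : ℚ) ^ 2 = b) :
    (P + -G).u = ((7 * (P.u.den : ℤ) * P.u.num - 6 * b : ℤ) : ℚ) /
      ((9 * (P.u.den : ℤ) ^ 2 + 8 * P.u.num ^ 2 : ℤ) : ℚ) := by
  have h1 : P + -G = -(-P + G) := by abel
  have h2 : (-P).u.den = P.u.den := by rw [neg_u, Rat.neg_den]
  have h3 : (-P).u.num = -P.u.num := by rw [neg_u, Rat.neg_num]
  have h4 := gb_u (-P) b (by rw [neg_v, h2]; exact hb)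
  rw [h1, neg_u, h4, h2, h3]
  push_cast
  rw [← neg_div]
  congr 1
  · ring
  · ring

/-- If 4 does not divide the numerator `B` then `B = 2 c` with `c` odd, `a`, `b` are odd, so
`7 a B + 6 b = 2 (7 a c + 3 b)` is divisible by 4, and `9 a ^ 2 + 8 B ^ 2` is odd. -/
lemma four_dvd_add (P : Pt) (h : ¬ (4 : ℤ) ∣ P.u.num) : (4 : ℤ) ∣ (P + G).u.num := by
  obtain ⟨b, h1, h2, h3, h4⟩ := coords P
  obtain ⟨c, hc⟩ := h4
  have hc2 : ¬ (2 : ℤ) ∣ c := by
    rintro ⟨d, hd⟩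
    apply h
    rw [hc, hd]
    exact ⟨d, by ring⟩
  have hb : ¬ (2 : ℤ) ∣ b := by
    intro hb
    have k1 : (2 : ℤ) ∣ (P.u.den : ℤ) ^ 4 := by
      have : (P.u.den : ℤ) ^ 4 = b * b + 2 * P.u.num ^ 4 := by linear_combination h1
      rw [this]
      exact dvd_add (Dvd.dvd.mul_right hb _) (Dvd.intro _ rfl)
    exact h3 (Int.prime_two.dvd_of_dvd_pow k1)
  have hN : ¬ (2 : ℤ) ∣ (9 * (P.u.den : ℤ) ^ 2 + 8 * P.u.num ^ 2) := by
    intro hN
    have k1 : (2 : ℤ) ∣ (P.u.den : ℤ) ^ 2 := by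
      have : (P.u.den : ℤ) ^ 2 = (9 * (P.u.den : ℤ) ^ 2 + 8 * P.u.num ^ 2) +
          2 * (-4 * (P.u.den : ℤ) ^ 2 - 4 * P.u.num ^ 2) := by ring
      rw [this]
      exact dvd_add hN (Dvd.intro _ rfl)
    exact h3 (Int.prime_two.dvd_of_dvd_pow k1)
  refine gb_four_dvd _ _ _ hN (gb_u P b h2) ?_
  rw [hc]
  have ha' : ∃ k : ℤ, (P.u.den : ℤ) = 2 * k + 1 := by
    refine ⟨(P.u.den : ℤ) / 2, ?_⟩
    omega
  have hb' : ∃ k : ℤ, b = 2 * k + 1 := ⟨b / 2, by omega⟩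
  have hc' : ∃ k : ℤ, c = 2 * k + 1 := ⟨c / 2, by omega⟩
  obtain ⟨k, hk⟩ := ha'
  obtain ⟨l, hl⟩ := hb'
  obtain ⟨m, hm⟩ := hc'
  rw [hk, hl, hm]
  exact ⟨14 * k * m + 7 * k + 7 * m + 3 * l + 5, by ring⟩

/-- apply `four_dvd_add` to `-P` (`P - G = -(-P + G)`) -/
lemma four_dvd_sub (P : Pt) (h : ¬ (4 : ℤ) ∣ P.u.num) : (4 : ℤ) ∣ (P + -G).u.num := by
  have h1 : P + -G = -(-P + G) := by abel
  have h3 : (-P).u.num = -P.u.num := by rw [neg_u, Rat.neg_num]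
  have h2 := four_dvd_add (-P) (by rw [h3, dvd_neg]; exact h)
  rw [h1, neg_u, Rat.neg_num, dvd_neg]
  exact h2

/-- Put `N = 9 a ^ 2 + 8 B ^ 2 > 0`, `x = 7 a B + 6 b`, `y = 7 a B - 6 b`. Then `x * y = (9 B ^ 2 - 4 a ^ 2) * N`
(use `b ^ 2 = a ^ 4 - 2 B ^ 4`), so `N` divides `gcd (N, x) * gcd (N, y)`, so `N ≤ gcd (N, x) * gcd (N, y)`.
`(P + G).u.den = N / gcd (N, x)`, `(P - G).u.den = N / gcd (N, y)`, hence the product of the denominators is at most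
`N ^ 2 / N = N ≤ 17 a ^ 2`, because `B ^ 2 ≤ a ^ 2` (from `2 B ^ 4 ≤ a ^ 4`). -/
lemma den_mul_den (P : Pt) : (P + G).u.den * (P + -G).u.den ≤ 17 * P.u.den ^ 2 := by
  obtain ⟨b, h1, h2, h3, h4⟩ := coords P
  have ha : (P.u.den : ℤ) ≠ 0 := by exact_mod_cast P.u.den_ne_zero
  set a : ℤ := (P.u.den : ℤ) with ha_def
  set B : ℤ := P.u.num with hB_def
  have hNpos : 0 < 9 * a ^ 2 + 8 * B ^ 2 := by positivity
  have hx := gb_den_mul_gcd _ _ _ hNpos.ne' (gb_u P b h2)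
  have hy := gb_den_mul_gcd _ _ _ hNpos.ne' (gb_u' P b h2)
  set N : ℤ := 9 * a ^ 2 + 8 * B ^ 2 with hN_def
  have hxy : (7 * a * B + 6 * b) * (7 * a * B - 6 * b) = (9 * B ^ 2 - 4 * a ^ 2) * N := by
    rw [hN_def]
    linear_combination 36 * h1
  have hdvd : N.natAbs ∣ Int.gcd N (7 * a * B + 6 * b) * Int.gcd N (7 * a * B - 6 * b) := by
    have k1 : N.natAbs ∣ (7 * a * B + 6 * b).natAbs * (7 * a * B - 6 * b).natAbs := by
      rw [← Int.natAbs_mul, hxy, Int.natAbs_mul]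
      exact Dvd.intro_left _ rfl
    rw [Int.gcd_eq_natAbs, Int.gcd_eq_natAbs, Nat.dvd_gcd_mul_iff_dvd_mul, mul_comm,
      Nat.dvd_gcd_mul_iff_dvd_mul, mul_comm]
    exact k1
  have hB : B ^ 2 ≤ a ^ 2 := by
    by_contra hcon
    push Not at hcon
    have k2 : a ^ 2 * a ^ 2 < B ^ 2 * B ^ 2 := by
      have k3 : 0 < a ^ 2 := by positivity
      nlinarith
    nlinarith [sq_nonneg b, sq_nonneg (B ^ 2)]
  have hn0 : 0 < N.natAbs := Int.natAbs_pos.2 hNpos.ne'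
  have hg0 : 0 < Int.gcd N (7 * a * B + 6 * b) * Int.gcd N (7 * a * B - 6 * b) := by
    apply Nat.pos_of_ne_zero
    intro h0
    rcases Nat.mul_eq_zero.1 h0 with h0 | h0
    · exact hNpos.ne' (Int.gcd_eq_zero_iff.1 h0).1
    · exact hNpos.ne' (Int.gcd_eq_zero_iff.1 h0).1
  have hle := Nat.le_of_dvd hg0 hdvd
  have hmain : (P + G).u.den * (P + -G).u.den ≤ N.natAbs := by
    apply Nat.le_of_mul_le_mul_right _ hg0
    calc (P + G).u.den * (P + -G).u.den *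
          (Int.gcd N (7 * a * B + 6 * b) * Int.gcd N (7 * a * B - 6 * b))
        = ((P + G).u.den * Int.gcd N (7 * a * B + 6 * b)) *
          ((P + -G).u.den * Int.gcd N (7 * a * B - 6 * b)) := by ring
      _ = N.natAbs * N.natAbs := by rw [hx, hy]
      _ ≤ N.natAbs * (Int.gcd N (7 * a * B + 6 * b) * Int.gcd N (7 * a * B - 6 * b)) :=
          Nat.mul_le_mul_left _ hle
  refine hmain.trans ?_
  have hfin : (N.natAbs : ℤ) ≤ ((17 * P.u.den ^ 2 : ℕ) : ℤ) := by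
    rw [Int.natAbs_of_nonneg hNpos.le]
    push_cast
    rw [← ha_def, hN_def]
    linarith
  exact_mod_cast hfin

end Pt

end BQ60
end

section

/-!
# MP_afa64c_lc: descent on the curve

Proof. Take `a = P.u.den`, `B = P.u.num`, `b` from `coords`, and `x, y, s` from `fermat_descent`. The pair
`(y / x, s / x ^ 2)` is a point `P1` of the curve. By `dbl_u`, `(P1 + P1).u = 2 (y/x) (s/x^2) / (1 + 2 y^4/x^4)
= 2 x y s / (x ^ 4 + 2 y ^ 4) = B / a = P.u`, and by `dbl_v`, `(P1 + P1).v = (x^8 - 12 x^4 y^4 + 4 y^8) / a ^ 2`.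
If `b = x^8 - ...` then `P = P1 + P1`. If `b = -(x^8 - ...)`, take `P' = -P1`: then `(P' + P').u = - P.u`,
`(P' + P').v = - P.v`, so `P = P' + P' + T` (`add_T_u`, `add_T_v`).
`P'.u.den` divides `x` (`P'.u = ± y / x`), so `P'.u.den ^ 4 ≤ x ^ 4 ≤ x ^ 4 + 2 y ^ 4 = a`.
-/

set_option autoImplicit false

namespace BQ60

namespace Pt

theorem descent (P : Pt) (hP : P.u ≠ 0) (h4 : (4 : ℤ) ∣ P.u.num) :
    ∃ P' : Pt, (P = P' + P' ∨ P = P' + P' + T) ∧ P'.u.den ^ 4 ≤ P.u.den := by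
  obtain ⟨b, hb, hv, hodd, -⟩ := coords P
  have hden : (0 : ℤ) < (P.u.den : ℤ) := by exact_mod_cast P.u.den_pos
  have hnum : P.u.num ≠ 0 := by
    intro h
    exact hP (Rat.num_eq_zero.1 h)
  have hcop : IsCoprime (P.u.den : ℤ) P.u.num := by
    have h1 : Nat.Coprime P.u.num.natAbs P.u.den := P.u.reduced
    rw [Int.isCoprime_iff_nat_coprime]
    simpa using h1.symm
  obtain ⟨x, y, s, hx, -, hs, ha, hB, hbb⟩ :=
    fermat_descent (P.u.den : ℤ) P.u.num b hden hnum hcop hodd h4 hb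
  have hxq : (x : ℚ) ≠ 0 := by exact_mod_cast hx.ne'
  have hsq : (x : ℚ) ^ 4 - 2 * (y : ℚ) ^ 4 = (s : ℚ) ^ 2 := by exact_mod_cast hs
  have haq : ((P.u.den : ℤ) : ℚ) = (x : ℚ) ^ 4 + 2 * (y : ℚ) ^ 4 := by
    rw [ha]; push_cast; ring
  have haq' : (P.u.den : ℚ) = (x : ℚ) ^ 4 + 2 * (y : ℚ) ^ 4 := by
    rw [← haq]; norm_cast
  have hBq : (P.u.num : ℚ) = 2 * x * y * s := by
    rw [hB]; push_cast; ring
  have hpos : (0 : ℚ) < (x : ℚ) ^ 4 + 2 * (y : ℚ) ^ 4 := by positivity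
  have hPu : P.u = (2 * x * y * s) / ((x : ℚ) ^ 4 + 2 * (y : ℚ) ^ 4) := by
    rw [← hBq, ← haq', Rat.num_div_den]
  have hPv : P.v = (b : ℚ) / ((x : ℚ) ^ 4 + 2 * (y : ℚ) ^ 4) ^ 2 := by
    rw [← haq', eq_div_iff (by rw [haq']; positivity)]
    exact hv
  have hD : (1 + 2 * ((y : ℚ) / x) ^ 4) = ((x : ℚ) ^ 4 + 2 * (y : ℚ) ^ 4) / (x : ℚ) ^ 4 := by
    field_simp
  let P1 : Pt := ⟨(y : ℚ) / x, (s : ℚ) / x ^ 2, by
    rw [div_pow, ← hsq]
    field_simp⟩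
  have hu1 : (P1 + P1).u = P.u := by
    rw [dbl_u, hPu]
    change 2 * ((y : ℚ) / x) * ((s : ℚ) / x ^ 2) / (1 + 2 * ((y : ℚ) / x) ^ 4) = _
    rw [hD]
    field_simp
  have hv1 : (P1 + P1).v = ((x : ℚ) ^ 8 - 12 * x ^ 4 * y ^ 4 + 4 * y ^ 8) /
      ((x : ℚ) ^ 4 + 2 * (y : ℚ) ^ 4) ^ 2 := by
    rw [dbl_v]
    change (1 - 12 * ((y : ℚ) / x) ^ 4 + 4 * ((y : ℚ) / x) ^ 8) /
      (1 + 2 * ((y : ℚ) / x) ^ 4) ^ 2 = _
    rw [hD]
    field_simp
  have hdvd : ((((y : ℚ) / x).den : ℕ) : ℤ) ∣ x := by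
    rw [← Rat.divInt_eq_div]
    exact Rat.den_dvd y x
  have hle : ((y : ℚ) / x).den ^ 4 ≤ P.u.den := by
    have h1 : ((((y : ℚ) / x).den : ℕ) : ℤ) ≤ x := Int.le_of_dvd hx hdvd
    have h2 : ((((y : ℚ) / x).den : ℕ) : ℤ) ^ 4 ≤ x ^ 4 :=
      pow_le_pow_left₀ (by positivity) h1 4
    have h3 : (0 : ℤ) ≤ y ^ 4 := by positivity
    have h4 : ((((y : ℚ) / x).den : ℕ) : ℤ) ^ 4 ≤ (P.u.den : ℤ) := by
      rw [ha]; linarith
    exact_mod_cast h4
  rcases hbb with hb1 | hb1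
  · refine ⟨P1, Or.inl ?_, hle⟩
    ext
    · exact hu1.symm
    · rw [hv1, hPv, hb1]
      push_cast
      ring
  · refine ⟨-P1, Or.inr ?_, ?_⟩
    · have hneg : -P1 + -P1 = -(P1 + P1) := by abel
      rw [hneg]
      ext
      · rw [add_T_u, neg_u, hu1, neg_neg]
      · rw [add_T_v, neg_v, hv1, hPv, hb1]
        push_cast
        ring
    · rw [neg_u, Rat.den_neg_eq_den]
      exact hle

end Pt

end BQ60
end

section

/-!
# MP_afa64c_lc: primes with prescribed rank of apparition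
-/

set_option autoImplicit false

namespace BQ60

open Pt

/-- the rank of apparition of `q` in the sequence `n G` is `d` -/
def Ord (q d : ℕ) : Prop := ∀ n : ℤ, inK q (n • G) ↔ (d : ℤ) ∣ n

/-- different ranks, different primes -/
lemma Ord.unique {q d d' : ℕ} (h : Ord q d) (h' : Ord q d') : d = d' := by
  have a1 : (d' : ℤ) ∣ (d : ℤ) := (h' d).1 ((h d).2 dvd_rfl)
  have a2 : (d : ℤ) ∣ (d' : ℤ) := (h d').1 ((h' d').2 dvd_rfl)
  exact Nat.dvd_antisymm (Int.natCast_dvd_natCast.1 a2) (Int.natCast_dvd_natCast.1 a1)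

private lemma Prim_kernel (q : ℕ) (hq : q.Prime) :
    ∃ r : ℕ, ∀ n : ℤ, inK q (n • G) ↔ (r : ℤ) ∣ n := by
  let H : AddSubgroup ℤ :=
    { carrier := {n | inK q (n • G)}
      zero_mem' := by
        show inK q ((0 : ℤ) • G)
        rw [zero_zsmul]; exact inK_zero q
      add_mem' := by
        intro a b ha hb
        show inK q ((a + b) • G)
        rw [add_zsmul]
        exact inK_add q hq _ _ ha hb
      neg_mem' := by
        intro a ha
        show inK q ((-a) • G)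
        rw [neg_zsmul]
        exact inK_neg q _ ha }
  obtain ⟨a, ha⟩ := Int.subgroup_cyclic H
  refine ⟨a.natAbs, fun n => ?_⟩
  have h1 : inK q (n • G) ↔ n ∈ H := Iff.rfl
  rw [h1, ha, ← AddSubgroup.zmultiples_eq_closure, Int.mem_zmultiples_iff, Int.natAbs_dvd]

/-- The set of `n` with `inK q (n • G)` is an additive subgroup of the integers (`inK_add`, `inK_neg`, `inK_zero`), so it is
`r ℤ` with `r ∣ 2 ^ (i+1) * 3 ^ j`; `r` does not divide `2 ^ i * 3 ^ j` nor `2 ^ (i+1) * 3 ^ (j-1)`; so `r = 2 ^ (i+1) * 3 ^ j`. -/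
lemma ord_of (q : ℕ) (hq : q.Prime) (i j : ℕ)
    (h1 : inK q (((2 ^ (i + 1) * 3 ^ j : ℕ) : ℤ) • G))
    (h2 : ¬ inK q (((2 ^ i * 3 ^ j : ℕ) : ℤ) • G))
    (h3 : ∀ j', j = j' + 1 → ¬ inK q (((2 ^ (i + 1) * 3 ^ j' : ℕ) : ℤ) • G)) :
    Ord q (2 ^ (i + 1) * 3 ^ j) := by
  obtain ⟨r, hr⟩ := Prim_kernel q hq
  have hr1 : r ∣ 2 ^ (i + 1) * 3 ^ j := Int.natCast_dvd_natCast.1 ((hr _).1 h1)
  obtain ⟨k1, k2, hk1, hk2, hk⟩ := (Nat.dvd_mul).1 hr1
  obtain ⟨a, ha, rfl⟩ := (Nat.dvd_prime_pow Nat.prime_two).1 hk1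
  obtain ⟨b, hb, rfl⟩ := (Nat.dvd_prime_pow Nat.prime_three).1 hk2
  have ha' : a = i + 1 := by
    by_contra hne
    have hle : a ≤ i := by omega
    apply h2
    rw [hr, Int.natCast_dvd_natCast, ← hk]
    exact Nat.mul_dvd_mul (pow_dvd_pow 2 hle) (pow_dvd_pow 3 hb)
  have hb' : b = j := by
    by_contra hne
    obtain ⟨j', rfl⟩ : ∃ j', j = j' + 1 := ⟨j - 1, by omega⟩
    have hle : b ≤ j' := by omega
    apply h3 j' rfl
    rw [hr, Int.natCast_dvd_natCast, ← hk]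
    exact Nat.mul_dvd_mul (pow_dvd_pow 2 ha) (pow_dvd_pow 3 hle)
  subst ha' hb'
  rw [← hk] at hr
  exact hr

private lemma Prim_dbl (i j : ℕ) : ((2 ^ (i + 1) * 3 ^ j : ℕ) : ℤ) • G =
    ((2 ^ i * 3 ^ j : ℕ) : ℤ) • G + ((2 ^ i * 3 ^ j : ℕ) : ℤ) • G := by
  rw [← add_zsmul]
  congr 1
  push_cast
  ring

private lemma Prim_tpl (i j : ℕ) : ((2 ^ i * 3 ^ (j + 1) : ℕ) : ℤ) • G =
    ((2 ^ i * 3 ^ j : ℕ) : ℤ) • G + ((2 ^ i * 3 ^ j : ℕ) : ℤ) • G +
      ((2 ^ i * 3 ^ j : ℕ) : ℤ) • G := by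
  rw [← add_zsmul, ← add_zsmul]
  congr 1
  push_cast
  ring

/-- `u (2^i 3^j G) ≠ 0`, by induction with `dbl_ne`, `tpl_ne` -/
lemma u_pow_ne (i j : ℕ) : (((2 ^ i * 3 ^ j : ℕ) : ℤ) • G).u ≠ 0 := by
  induction i with
  | zero =>
    induction j with
    | zero =>
      have : ((2 ^ 0 * 3 ^ 0 : ℕ) : ℤ) • G = G := by
        simp
      rw [this, G_u]
      norm_num
    | succ j ih =>
      rw [Prim_tpl]
      exact tpl_ne _ ih
  | succ i ih =>
    rw [Prim_dbl]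
    exact dbl_ne _ ih

/-- `j = 0`: take any prime factor `q` of the denominator of `u (2^i G)` (it is `≥ 3` and odd by `three_le_den`, `coords`), and use
`inK_dbl_of_dvd_den`, `not_inK_of_dvd_den`, `ord_of`. `j = j' + 1`: apply `prim3` to `P = (2^i 3^j') G`; then
`q ∣ den u (3 P)`, so `inK q (6 P)`, not `inK q (3 P)`, not `inK q (2 P)`. (`q ≠ 2` by `inK_two` and `not_inK_of_dvd_den`.) -/
theorem exists_prim (i j : ℕ) : ∃ q : ℕ, q.Prime ∧ Ord q (2 ^ (i + 1) * 3 ^ j) := by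
  rcases j with _ | j
  · set P := ((2 ^ i * 3 ^ 0 : ℕ) : ℤ) • G with hP
    have hne : P.u ≠ 0 := u_pow_ne i 0
    have h3 := three_le_den P hne
    have hq : (P.u.den.minFac).Prime := Nat.minFac_prime (by omega)
    have hd : P.u.den.minFac ∣ P.u.den := Nat.minFac_dvd _
    have hq2 : P.u.den.minFac ≠ 2 := by
      intro h2
      obtain ⟨b, -, -, hb, -⟩ := coords P
      apply hb
      rw [h2] at hd
      exact_mod_cast hd
    refine ⟨_, hq, ord_of _ hq i 0 ?_ ?_ ?_⟩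
    · rw [Prim_dbl]
      exact inK_dbl_of_dvd_den _ hq hq2 _ hd
    · exact not_inK_of_dvd_den _ hq _ hd
    · intro j' hj'
      omega
  · set P := ((2 ^ i * 3 ^ j : ℕ) : ℤ) • G with hP
    have hne : P.u ≠ 0 := u_pow_ne i j
    obtain ⟨q, hq, hd, hn⟩ := prim3 P hne
    have hq2 : q ≠ 2 := by
      rintro rfl
      exact not_inK_of_dvd_den 2 hq _ hd (inK_two _)
    refine ⟨q, hq, ord_of _ hq i (j + 1) ?_ ?_ ?_⟩
    · rw [Prim_dbl, Prim_tpl]
      exact inK_dbl_of_dvd_den _ hq hq2 _ hd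
    · rw [Prim_tpl]
      exact not_inK_of_dvd_den _ hq _ hd
    · intro j' hj'
      have : j' = j := by omega
      subst this
      rw [Prim_dbl]
      exact hn

/-- `3` divides the numerator of `u (2 G) = 84 / 113`, up to sign; so `Ord 3 d` with `3 ∣ d` is impossible -/
lemma not_ord_three (d : ℕ) (hd : 3 ∣ d) : ¬ Ord 3 d := by
  intro h
  have h2 : inK 3 ((2 : ℤ) • G) := by
    rw [two_zsmul, inK]
    have : (G + G).u = 84 / 113 := by
      rw [dbl_u, G_u, G_v]; norm_num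
    rw [this]
    have e : ((84 / 113 : ℚ)).num = 84 := by
      norm_num [Rat.num_div_eq_of_coprime]
    rw [e]
    norm_num
  have h3 := (h 2).1 h2
  have h4 : (3 : ℤ) ∣ 2 := dvd_trans (by exact_mod_cast hd) h3
  norm_num at h4

/-- `Ord 2 d` is impossible for `d ≠ 1`, by `inK_two` -/
lemma not_ord_two (d : ℕ) (hd : d ≠ 1) : ¬ Ord 2 d := by
  intro h
  have h1 : (d : ℤ) ∣ 1 := (h 1).1 (inK_two _)
  apply hd
  have : (d : ℤ) ∣ ((1 : ℕ) : ℤ) := by exact_mod_cast h1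
  exact Nat.dvd_one.1 (Int.natCast_dvd_natCast.1 this)

end BQ60
end

section

/-!
# MP_afa64c_lc: the group of rational points is generated by G and T

Proof. Strong induction on `d = P.u.den`. If `P.u = 0` then `P = 0` or `P = T` (`u_zero_iff`), `n = 0`. Let `P.u ≠ 0`, so `3 ≤ d`
(`three_le_den`). If 4 divides `P.u.num`: `descent` gives `P'` with `P'.u.den ^ 4 ≤ d`, so `P'.u.den < d`; the induction
hypothesis gives `P' = n G` or `n G + T`, so `P' + P' = (2 n) G` (as `T + T = 0`) and `P = (2n) G` or `(2n) G + T`.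
If 4 does not divide `P.u.num`: both `P + G` and `P - G` have numerators divisible by 4 (`four_dvd_add`, `four_dvd_sub`), and one of
them, call it `Q = P ± G`, has `Q.u.den ^ 2 ≤ 17 d ^ 2` (`den_mul_den`). If `Q.u = 0` then `Q = 0` or `T` and `P = ∓ G` or
`∓ G + T`. Otherwise `Q = P' + P'` or `P' + P' + T` with `P'.u.den ^ 4 ≤ Q.u.den`, so `P'.u.den ^ 8 ≤ 17 d ^ 2`, so `P'.u.den < d`
(otherwise `d ^ 8 ≤ 17 d ^ 2`, impossible for `d ≥ 3`). The induction hypothesis for `P'` gives the claim.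
-/

set_option autoImplicit false

namespace BQ60

namespace Pt

/-- the claim of `mw` for one point -/
private def Good (P : Pt) : Prop := ∃ n : ℤ, P = n • G ∨ P = n • G + T

private lemma good_zero : Good 0 := ⟨0, Or.inl (by simp)⟩

private lemma good_T : Good T := ⟨0, Or.inr (by simp)⟩

private lemma good_dbl {P : Pt} (h : Good P) : Good (P + P) := by
  obtain ⟨n, h | h⟩ := h
  · exact ⟨n + n, Or.inl (by rw [h, add_smul])⟩
  · refine ⟨n + n, Or.inl ?_⟩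
    rw [h, add_smul]
    calc n • G + T + (n • G + T) = n • G + n • G + (T + T) := by abel
      _ = n • G + n • G := by rw [T_add_T, add_zero]

private lemma good_add_T {P : Pt} (h : Good P) : Good (P + T) := by
  obtain ⟨n, h | h⟩ := h
  · exact ⟨n, Or.inr (by rw [h])⟩
  · exact ⟨n, Or.inl (by rw [h, add_assoc, T_add_T, add_zero])⟩

private lemma good_add_G {P : Pt} (h : Good P) (k : ℤ) : Good (P + k • G) := by
  obtain ⟨n, h | h⟩ := h
  · exact ⟨n + k, Or.inl (by rw [h, add_smul])⟩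
  · refine ⟨n + k, Or.inr ?_⟩
    rw [h, add_smul]
    abel

private lemma good_main (d : ℕ) : ∀ P : Pt, P.u.den = d → Good P := by
  induction d using Nat.strong_induction_on with
  | _ d ih =>
    intro P hd
    by_cases h0 : P.u = 0
    · rcases (u_zero_iff P).1 h0 with h | h
      · rw [h]; exact good_zero
      · rw [h]; exact good_T
    have h3 := three_le_den P h0
    rw [hd] at h3
    by_cases h4 : (4 : ℤ) ∣ P.u.num
    · obtain ⟨P', hP', hle⟩ := descent P h0 h4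
      have hlt : P'.u.den < d := by
        by_contra hcon
        push Not at hcon
        have h1 : d ^ 4 ≤ d := (Nat.pow_le_pow_left hcon 4).trans (hle.trans hd.le)
        have h2 : d ^ 1 < d ^ 4 := Nat.pow_lt_pow_right (by omega) (by norm_num)
        rw [pow_one] at h2
        omega
      have hg := ih _ hlt P' rfl
      rcases hP' with h | h
      · rw [h]; exact good_dbl hg
      · rw [h]; exact good_add_T (good_dbl hg)
    · have key : ∀ Q : Pt, (4 : ℤ) ∣ Q.u.num → Q.u.den ^ 2 ≤ 17 * d ^ 2 → Good Q := by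
        intro Q hQ4 hQd
        by_cases hQ0 : Q.u = 0
        · rcases (u_zero_iff Q).1 hQ0 with h | h
          · rw [h]; exact good_zero
          · rw [h]; exact good_T
        obtain ⟨P', hP', hle⟩ := descent Q hQ0 hQ4
        have hlt : P'.u.den < d := by
          by_contra hcon
          push Not at hcon
          have h1 : (d ^ 4) ^ 2 ≤ 17 * d ^ 2 :=
            (Nat.pow_le_pow_left ((Nat.pow_le_pow_left hcon 4).trans hle) 2).trans hQd
          have h2 : 3 ^ 6 ≤ d ^ 6 := Nat.pow_le_pow_left h3 6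
          have h5 : 0 < d ^ 2 := by positivity
          nlinarith
        have hg := ih _ hlt P' rfl
        rcases hP' with h | h
        · rw [h]; exact good_dbl hg
        · rw [h]; exact good_add_T (good_dbl hg)
      have hmul := den_mul_den P
      rw [hd] at hmul
      rcases le_total (P + G).u.den (P + -G).u.den with hle | hle
      · have hQ := key (P + G) (four_dvd_add P h4) (by nlinarith)
        have := good_add_G hQ (-1)
        rwa [neg_smul, one_smul, add_neg_cancel_right] at this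
      · have hQ := key (P + -G) (four_dvd_sub P h4) (by nlinarith)
        have := good_add_G hQ 1
        rwa [one_smul, neg_add_cancel_right] at this

theorem mw (P : Pt) : ∃ n : ℤ, P = n • G ∨ P = n • G + T :=
  good_main _ P rfl

end Pt

end BQ60
end

section

/-!
# MP_afa64c_lc: solutions of the system

`sol_exists`: take `a = P.u.den`, `b` from `coords`, `B = |P.u.num|` (a positive integer; `B - 1` is a sum of four squares of
integers, `Nat.sum_four_squares`), `w_2 = (a^4 + 2 B^4) / (a^2 b)`, `w_3 = 3 Φ / Ψ` with `Φ = a^8 + 12 a^4 B^4 - 12 B^8`,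
`Ψ = 3 a^8 - 12 a^4 B^4 - 4 B^8` (odd, so nonzero). Let `q` be a prime satisfying the hypothesis. `w_2` is `q`-integral:
`a^2 b` is odd, so let `q` be odd. If `q ∣ B` then `q` does not divide `a`, nor `b` (`b^2 = a^4 - 2 B^4`). If not `inK q (P + P)`:
`(P+P).u (a^4 + 2 B^4) = 2 a b B` up to sign (`dbl_u`) and `q ∣ a b` would imply that `q` does not divide `a^4 + 2 B^4` (if `q ∣ a` then
`q ∣ 2 B^4`; if `q ∣ b` then `2 B^4 = a^4`, `q ∣ 2 a^4`; both impossible), so `q` would divide the numerator of `(P+P).u`. So `q`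
does not divide `a^2 b` and hence not the denominator of `w_2`.
`w_3` is `q`-integral: if `q ∣ B` and `q ≠ 3` then `Ψ = 3 a^8` modulo `q` is prime to `q`. If `q = 3 ∣ B` then
`w_3 = Φ / (a^8 - 4 a^4 B^4 - 4 (B / 3) B^7)` and this denominator is `a^8` modulo 3. If `q` does not divide `B` and not `inK q (P+P+P)`: suppose
`q ∣ Ψ`. Then `q ≠ 2` (`Ψ` odd), `q ≠ 3` (`Ψ = - 4 B^8` modulo 3), `q` does not divide `a` (`Ψ = -4 B^8` modulo `a`), and not `Φ`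
(`3 Φ - Ψ = 16 B^4 (3 a^4 - 2 B^4)`; modulo `3 a^4 - 2 B^4`, `Φ = -8 a^8`), and `(P+P+P).u (a Φ) = B Ψ` up to sign (`tpl_u`) shows that
`q` divides the numerator of `(P+P+P).u`: contradiction.
-/

set_option autoImplicit false

namespace BQ60

open Pt

private lemma sola_den (N D : ℤ) (q : ℕ) (h : ¬ (q : ℤ) ∣ D) :
    ¬ q ∣ ((N : ℚ) / (D : ℚ)).den := by
  intro hq
  apply h
  have h1 : ((((N : ℚ) / (D : ℚ)).den : ℕ) : ℤ) ∣ D := by
    rw [← Rat.divInt_eq_div]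
    exact Rat.den_dvd N D
  exact (Int.natCast_dvd_natCast.2 hq).trans h1

private lemma sola_pow {q : ℕ} (hq : q.Prime) {x : ℤ} (n : ℕ) (h : (q : ℤ) ∣ x ^ n) :
    (q : ℤ) ∣ x :=
  (Nat.prime_iff_prime_int.1 hq).dvd_of_dvd_pow h

private lemma sola_mul {q : ℕ} (hq : q.Prime) {x y : ℤ} (h : (q : ℤ) ∣ x * y) :
    (q : ℤ) ∣ x ∨ (q : ℤ) ∣ y :=
  (Nat.prime_iff_prime_int.1 hq).dvd_or_dvd h

private lemma sola_two {q : ℕ} (hq : q.Prime) (n : ℕ) (h : (q : ℤ) ∣ 2 ^ n) : q = 2 := by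
  have h1 := sola_pow hq n h
  have h2 : q ∣ 2 := by exact_mod_cast h1
  exact (Nat.prime_dvd_prime_iff_eq hq Nat.prime_two).1 h2

private lemma sola_three {q : ℕ} (hq : q.Prime) (h : (q : ℤ) ∣ 3) : q = 3 := by
  have h2 : q ∣ 3 := by exact_mod_cast h
  exact (Nat.prime_dvd_prime_iff_eq hq Nat.prime_three).1 h2

private lemma sola_cop (P : Pt) {q : ℕ} (hq : q.Prime) (h1 : (q : ℤ) ∣ P.u.num)
    (h2 : (q : ℤ) ∣ P.u.den) : False := by
  have h3 : q ∣ P.u.num.natAbs := Int.natCast_dvd.1 h1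
  have h4 : q ∣ P.u.den := by exact_mod_cast h2
  have h5 : q ∣ 1 := by
    have := Nat.dvd_gcd h3 h4
    rwa [P.u.reduced] at this
  exact hq.one_lt.ne' (Nat.dvd_one.1 h5)

/-- from a product formula for a rational number to its numerator -/
private lemma sola_num (r : ℚ) (X Y : ℤ) (h : r * (X : ℚ) = (Y : ℚ)) {q : ℕ} (hq : q.Prime)
    (hY : (q : ℤ) ∣ Y) (hX : ¬ (q : ℤ) ∣ X) : (q : ℤ) ∣ r.num := by
  have h1 : (r.num : ℚ) * X = Y * r.den := by
    have hd : (r.den : ℚ) ≠ 0 := by exact_mod_cast r.den_nz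
    have : (r.num : ℚ) = r * r.den := (Rat.mul_den_eq_num r).symm
    rw [this, ← h]; ring
  have h2 : r.num * X = Y * (r.den : ℤ) := by exact_mod_cast h1
  have h3 : (q : ℤ) ∣ r.num * X := by rw [h2]; exact Dvd.dvd.mul_right hY _
  rcases sola_mul hq h3 with h4 | h4
  · exact h4
  · exact absurd h4 hX

/-- the arithmetic of `w_2` -/
private lemma sola_w2 (P : Pt) (b : ℤ) (hb : (P.u.den : ℤ) ^ 4 - 2 * P.u.num ^ 4 = b ^ 2)
    (hv : P.v * (P.u.den : ℚ) ^ 2 = b) (ha : ¬ (2 : ℤ) ∣ P.u.den)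
    {q : ℕ} (hq : q.Prime) (hc : inK q P ∨ ¬ inK q (P + P)) :
    ¬ (q : ℤ) ∣ (P.u.den : ℤ) ^ 2 * b := by
  intro h
  have ha0 : (P.u.den : ℚ) ≠ 0 := by exact_mod_cast P.u.den_nz
  set a : ℤ := (P.u.den : ℤ) with haa
  set B : ℤ := P.u.num with hB
  have hqa : (q : ℤ) ∣ a → (q : ℤ) ∣ B → False := fun h1 h2 => sola_cop P hq h2 h1
  have hq2 : q ≠ 2 := by
    rintro rfl
    rcases sola_mul hq h with h1 | h1
    · exact ha (sola_pow hq 2 h1)
    · apply ha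
      apply sola_pow Nat.prime_two 4
      have : a ^ 4 = b ^ 2 + 2 * B ^ 4 := by linarith
      have h3 : ((2 : ℕ) : ℤ) ∣ b ^ 2 + 2 * B ^ 4 :=
        dvd_add (Dvd.dvd.trans h1 (dvd_pow_self b two_ne_zero)) (Dvd.intro _ rfl)
      rw [this]; exact h3
  have h2 : ∀ x : ℤ, (q : ℤ) ∣ 2 * x → (q : ℤ) ∣ x := by
    intro x hx
    rcases sola_mul hq hx with h1 | h1
    · exact absurd (sola_two hq 1 (by simpa using h1)) hq2
    · exact h1
  have hab : (q : ℤ) ∣ a ∨ (q : ℤ) ∣ b := by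
    rcases sola_mul hq h with h1 | h1
    · exact Or.inl (sola_pow hq 2 h1)
    · exact Or.inr h1
  have hqB : ¬ (q : ℤ) ∣ B := by
    intro hqB
    rcases hab with h1 | h1
    · exact hqa h1 hqB
    · refine hqa (sola_pow hq 4 ?_) hqB
      have : a ^ 4 = b ^ 2 + 2 * B ^ 4 := by linarith
      rw [this]
      exact dvd_add (Dvd.dvd.trans h1 (dvd_pow_self b two_ne_zero))
        (Dvd.dvd.mul_left (Dvd.dvd.trans hqB (dvd_pow_self B (by norm_num))) _)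
  have hX : ¬ (q : ℤ) ∣ a ^ 4 + 2 * B ^ 4 := by
    intro hX
    rcases hab with h1 | h1
    · apply hqB
      apply sola_pow hq 4
      apply h2
      have h3 : (q : ℤ) ∣ a ^ 4 := Dvd.dvd.trans h1 (dvd_pow_self a (by norm_num))
      exact (dvd_add_right h3).1 hX
    · have h3 : (q : ℤ) ∣ b ^ 2 := Dvd.dvd.trans h1 (dvd_pow_self b two_ne_zero)
      have h4 : (q : ℤ) ∣ 2 * a ^ 4 := by
        have : 2 * a ^ 4 = (a ^ 4 + 2 * B ^ 4) + b ^ 2 := by linarith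
        rw [this]; exact dvd_add hX h3
      have h5 : (q : ℤ) ∣ a := sola_pow hq 4 (h2 _ h4)
      have h6 : (q : ℤ) ∣ a ^ 4 := Dvd.dvd.trans h5 (dvd_pow_self a (by norm_num))
      exact hqB (sola_pow hq 4 (h2 _ ((dvd_add_right h6).1 hX)))
  rcases hc with hc | hc
  · exact hqB hc
  · apply hc
    have hu : P.u = (B : ℚ) / (a : ℚ) := by
      rw [haa, hB, Int.cast_natCast]; exact (Rat.num_div_den P.u).symm
    have haQ : (a : ℚ) ≠ 0 := by rw [haa, Int.cast_natCast]; exact ha0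
    have hv' : P.v = (b : ℚ) / (a : ℚ) ^ 2 := by
      rw [eq_div_iff (pow_ne_zero 2 haQ), ← hv, haa, Int.cast_natCast]
    refine sola_num (P + P).u (a ^ 4 + 2 * B ^ 4) (2 * a * b * B) ?_ hq ?_ hX
    · rw [dbl_u, hu, hv']
      push_cast
      have hne : (a : ℚ) ^ 4 + 2 * (B : ℚ) ^ 4 ≠ 0 := by positivity
      have hne' : 1 + 2 * ((B : ℚ) / a) ^ 4 ≠ 0 := by positivity
      field_simp
    · rcases hab with h1 | h1
      · exact Dvd.dvd.mul_right (Dvd.dvd.mul_right (Dvd.dvd.mul_left h1 _) _) _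
      · exact Dvd.dvd.mul_right (Dvd.dvd.mul_left h1 _) _

/-- the arithmetic of `w_3` -/
private lemma sola_w3 (P : Pt) (ha : ¬ (2 : ℤ) ∣ P.u.den)
    {q : ℕ} (hq : q.Prime) (hqB : ¬ (q : ℤ) ∣ P.u.num) (hc : ¬ inK q (P + P + P)) :
    ¬ (q : ℤ) ∣ 3 * (P.u.den : ℤ) ^ 8 - 12 * (P.u.den : ℤ) ^ 4 * P.u.num ^ 4
      - 4 * P.u.num ^ 8 := by
  intro h
  have ha0 : (P.u.den : ℚ) ≠ 0 := by exact_mod_cast P.u.den_nz
  set a : ℤ := (P.u.den : ℤ) with haa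
  set B : ℤ := P.u.num with hB
  have hq2 : q ≠ 2 := by
    rintro rfl
    apply ha
    apply sola_pow Nat.prime_two 8
    have e : a ^ 8 = (3 * a ^ 8 - 12 * a ^ 4 * B ^ 4 - 4 * B ^ 8) +
        2 * (- a ^ 8 + 6 * a ^ 4 * B ^ 4 + 2 * B ^ 8) := by ring
    rw [e]
    exact dvd_add h (Dvd.intro _ rfl)
  have h2 : ∀ x : ℤ, (q : ℤ) ∣ 2 * x → (q : ℤ) ∣ x := by
    intro x hx
    rcases sola_mul hq hx with h1 | h1
    · exact absurd (sola_two hq 1 (by simpa using h1)) hq2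
    · exact h1
  have h4 : ∀ x : ℤ, (q : ℤ) ∣ 4 * x → (q : ℤ) ∣ x := by
    intro x hx
    apply h2; apply h2
    have : 2 * (2 * x) = 4 * x := by ring
    rw [this]; exact hx
  have hq3 : q ≠ 3 := by
    rintro rfl
    apply hqB
    apply sola_pow Nat.prime_three 8
    apply h4
    have e : 4 * B ^ 8 = 3 * (a ^ 8 - 4 * a ^ 4 * B ^ 4) -
        (3 * a ^ 8 - 12 * a ^ 4 * B ^ 4 - 4 * B ^ 8) := by ring
    rw [e]
    exact dvd_sub (Dvd.intro _ rfl) h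
  have hqa : ¬ (q : ℤ) ∣ a := by
    intro h1
    apply hqB
    apply sola_pow hq 8
    apply h4
    have e : 4 * B ^ 8 = a * (3 * a ^ 7 - 12 * a ^ 3 * B ^ 4) -
        (3 * a ^ 8 - 12 * a ^ 4 * B ^ 4 - 4 * B ^ 8) := by ring
    rw [e]
    exact dvd_sub (Dvd.dvd.mul_right h1 _) h
  have hqΦ : ¬ (q : ℤ) ∣ a ^ 8 + 12 * a ^ 4 * B ^ 4 - 12 * B ^ 8 := by
    intro hΦ
    have h5 : (q : ℤ) ∣ 3 * a ^ 4 - 2 * B ^ 4 := by
      have h6 : (q : ℤ) ∣ 4 * (4 * (B ^ 4 * (3 * a ^ 4 - 2 * B ^ 4))) := by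
        have e : 4 * (4 * (B ^ 4 * (3 * a ^ 4 - 2 * B ^ 4))) =
          (a ^ 8 + 12 * a ^ 4 * B ^ 4 - 12 * B ^ 8) * 3 -
          (3 * a ^ 8 - 12 * a ^ 4 * B ^ 4 - 4 * B ^ 8) := by ring
        rw [e]
        exact dvd_sub (Dvd.dvd.mul_right hΦ _) h
      rcases sola_mul hq (h4 _ (h4 _ h6)) with h7 | h7
      · exact absurd (sola_pow hq 4 h7) hqB
      · exact h7
    apply hqa
    apply sola_pow hq 8
    apply h2
    apply h4
    have e : 4 * (2 * a ^ 8) = (3 * a ^ 4 - 2 * B ^ 4) * (3 * a ^ 4 + 6 * B ^ 4) -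
        (a ^ 8 + 12 * a ^ 4 * B ^ 4 - 12 * B ^ 8) := by ring
    have e' : 4 * (2 * a ^ 8) = (3 * a ^ 4 - 2 * B ^ 4) * (3 * a ^ 4 + 6 * B ^ 4) -
        (a ^ 8 + 12 * a ^ 4 * B ^ 4 - 12 * B ^ 8) := e
    rw [e']
    exact dvd_sub (Dvd.dvd.mul_right h5 _) hΦ
  apply hc
  have hu : P.u = (B : ℚ) / (a : ℚ) := by
    rw [haa, hB, Int.cast_natCast]; exact (Rat.num_div_den P.u).symm
  have haQ : (a : ℚ) ≠ 0 := by rw [haa, Int.cast_natCast]; exact ha0
  refine sola_num (P + P + P).u (a * (a ^ 8 + 12 * a ^ 4 * B ^ 4 - 12 * B ^ 8))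
    (B * (3 * a ^ 8 - 12 * a ^ 4 * B ^ 4 - 4 * B ^ 8)) ?_ hq (Dvd.dvd.mul_left h _) ?_
  · have hPhi := Phi_pos P
    rw [tpl_u]
    rw [hu] at hPhi ⊢
    have hne' : 1 + 12 * ((B : ℚ) / a) ^ 4 - 12 * ((B : ℚ) / a) ^ 8 ≠ 0 := by
      linarith
    push_cast
    have hne : (a : ℚ) ^ 8 + 12 * (a : ℚ) ^ 4 * (B : ℚ) ^ 4 - 12 * (B : ℚ) ^ 8 =
        (a : ℚ) ^ 8 * (1 + 12 * ((B : ℚ) / a) ^ 4 - 12 * ((B : ℚ) / a) ^ 8) := by
      field_simp
    rw [hne, div_mul_eq_mul_div, div_eq_iff hne']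
    field_simp
  · intro h8
    rcases sola_mul hq h8 with h9 | h9
    · exact hqa h9
    · exact hqΦ h9

/-- integers as rational numbers -/
private lemma sola_int (z : ℤ) : ((z : ℚ)).den = 1 := Rat.den_intCast z

theorem sol_exists (P : Pt) (hP : P.u ≠ 0) : ∃ (x : Fin 8 → ℚ),
    Sys x (1 + x 2 ^ 2 + x 3 ^ 2 + x 4 ^ 2 + x 5 ^ 2) ∧
    (∀ i : Fin 8, i.val < 6 → (x i).den = 1) ∧
    ∀ q : ℕ, q.Prime → (inK q P ∨ (¬ inK q (P + P) ∧ ¬ inK q (P + P + P))) →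
      ¬ q ∣ (x 6).den ∧ ¬ q ∣ (x 7).den := by
  obtain ⟨b, hb, hv, ha, -⟩ := coords P
  have ha0 : (P.u.den : ℚ) ≠ 0 := by exact_mod_cast P.u.den_nz
  have hB0 : P.u.num ≠ 0 := Rat.num_ne_zero.2 hP
  obtain ⟨s1, s2, s3, s4, hs⟩ := Nat.sum_four_squares (P.u.num.natAbs - 1)
  have hpos : 1 ≤ P.u.num.natAbs := Int.natAbs_pos.2 hB0
  have hsum : (1 : ℚ) + (s1 : ℚ) ^ 2 + (s2 : ℚ) ^ 2 + (s3 : ℚ) ^ 2 + (s4 : ℚ) ^ 2 =
      (P.u.num.natAbs : ℚ) := by
    have h1 : 1 + (s1 ^ 2 + s2 ^ 2 + s3 ^ 2 + s4 ^ 2) = P.u.num.natAbs := by omega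
    have h2 : (1 : ℚ) + ((s1 : ℚ) ^ 2 + (s2 : ℚ) ^ 2 + (s3 : ℚ) ^ 2 + (s4 : ℚ) ^ 2) =
        (P.u.num.natAbs : ℚ) := by exact_mod_cast h1
    rw [← h2]; ring
  have hn4 : (P.u.num.natAbs : ℚ) ^ 4 = (P.u.num : ℚ) ^ 4 := by
    have h1 : ((P.u.num.natAbs : ℕ) : ℚ) = |(P.u.num : ℚ)| := by
      rw [Nat.cast_natAbs, Int.cast_abs]
    rw [h1, Even.pow_abs (by decide)]
  have hn8 : (P.u.num.natAbs : ℚ) ^ 8 = (P.u.num : ℚ) ^ 8 := by
    have e1 : (P.u.num.natAbs : ℚ) ^ 8 = ((P.u.num.natAbs : ℚ) ^ 4) ^ 2 := by ring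
    have e2 : (P.u.num : ℚ) ^ 8 = ((P.u.num : ℚ) ^ 4) ^ 2 := by ring
    rw [e1, e2, hn4]
  set a : ℤ := (P.u.den : ℤ) with haa
  set B : ℤ := P.u.num with hB
  have haQ : (a : ℚ) = (P.u.den : ℚ) := by rw [haa, Int.cast_natCast]
  have hbQ : (a : ℚ) ^ 4 - 2 * (B : ℚ) ^ 4 = (b : ℚ) ^ 2 := by exact_mod_cast hb
  have hb0 : b ≠ 0 := by
    rintro rfl
    apply ha
    apply sola_pow Nat.prime_two 4
    have e : a ^ 4 = 2 * B ^ 4 := by linarith
    rw [e]; exact Dvd.intro _ rfl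
  have hPsi0 : 3 * a ^ 8 - 12 * a ^ 4 * B ^ 4 - 4 * B ^ 8 ≠ 0 := by
    intro h0
    apply ha
    apply sola_pow Nat.prime_two 8
    have e : a ^ 8 = 2 * (- a ^ 8 + 6 * a ^ 4 * B ^ 4 + 2 * B ^ 8) := by linarith
    rw [e]; exact Dvd.intro _ rfl
  have hPsiQ : (3 * (a : ℚ) ^ 8 - 12 * (a : ℚ) ^ 4 * (B : ℚ) ^ 4 - 4 * (B : ℚ) ^ 8) ≠ 0 := by
    exact_mod_cast hPsi0
  have ha0' : (a : ℚ) ≠ 0 := by rw [haQ]; exact ha0
  have hb0' : (b : ℚ) ≠ 0 := by exact_mod_cast hb0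
  refine ⟨![(a : ℚ), (b : ℚ), (s1 : ℚ), (s2 : ℚ), (s3 : ℚ), (s4 : ℚ),
    ((a ^ 4 + 2 * B ^ 4 : ℤ) : ℚ) / ((a ^ 2 * b : ℤ) : ℚ),
    ((3 * (a ^ 8 + 12 * a ^ 4 * B ^ 4 - 12 * B ^ 8) : ℤ) : ℚ) /
      ((3 * a ^ 8 - 12 * a ^ 4 * B ^ 4 - 4 * B ^ 8 : ℤ) : ℚ)], ?_, ?_, ?_⟩
  · refine ⟨rfl, ?_, ?_, ?_⟩
    · show (a : ℚ) ^ 4 - 2 * ((1 : ℚ) + (s1 : ℚ) ^ 2 + (s2 : ℚ) ^ 2 + (s3 : ℚ) ^ 2 +
        (s4 : ℚ) ^ 2) ^ 4 = (b : ℚ) ^ 2
      rw [hsum, hn4]; exact hbQ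
    · show ((a ^ 4 + 2 * B ^ 4 : ℤ) : ℚ) / ((a ^ 2 * b : ℤ) : ℚ) * ((a : ℚ) ^ 2 * (b : ℚ)) =
        (a : ℚ) ^ 4 + 2 * ((1 : ℚ) + (s1 : ℚ) ^ 2 + (s2 : ℚ) ^ 2 + (s3 : ℚ) ^ 2 +
        (s4 : ℚ) ^ 2) ^ 4
      rw [hsum, hn4]
      push_cast
      field_simp
    · show ((3 * (a ^ 8 + 12 * a ^ 4 * B ^ 4 - 12 * B ^ 8) : ℤ) : ℚ) /
        ((3 * a ^ 8 - 12 * a ^ 4 * B ^ 4 - 4 * B ^ 8 : ℤ) : ℚ) *
        (3 * (a : ℚ) ^ 8 - 12 * (a : ℚ) ^ 4 * ((1 : ℚ) + (s1 : ℚ) ^ 2 + (s2 : ℚ) ^ 2 +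
          (s3 : ℚ) ^ 2 + (s4 : ℚ) ^ 2) ^ 4 - 4 * ((1 : ℚ) + (s1 : ℚ) ^ 2 + (s2 : ℚ) ^ 2 +
          (s3 : ℚ) ^ 2 + (s4 : ℚ) ^ 2) ^ 8) =
        3 * ((a : ℚ) ^ 8 + 12 * (a : ℚ) ^ 4 * ((1 : ℚ) + (s1 : ℚ) ^ 2 + (s2 : ℚ) ^ 2 +
          (s3 : ℚ) ^ 2 + (s4 : ℚ) ^ 2) ^ 4 - 12 * ((1 : ℚ) + (s1 : ℚ) ^ 2 + (s2 : ℚ) ^ 2 +
          (s3 : ℚ) ^ 2 + (s4 : ℚ) ^ 2) ^ 8)
      rw [hsum, hn4, hn8]
      push_cast
      rw [div_mul_cancel₀ _ hPsiQ]
  · intro i hi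
    fin_cases i
    · exact sola_int a
    · exact sola_int b
    · exact Rat.den_natCast s1
    · exact Rat.den_natCast s2
    · exact Rat.den_natCast s3
    · exact Rat.den_natCast s4
    · simp at hi
    · simp at hi
  · intro q hq hc
    have hc2 : inK q P ∨ ¬ inK q (P + P) := hc.imp_right And.left
    refine ⟨sola_den _ _ q (sola_w2 P b hb hv ha hq hc2), ?_⟩
    show ¬ q ∣ (((3 * (a ^ 8 + 12 * a ^ 4 * B ^ 4 - 12 * B ^ 8) : ℤ) : ℚ) /
      ((3 * a ^ 8 - 12 * a ^ 4 * B ^ 4 - 4 * B ^ 8 : ℤ) : ℚ)).den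
    by_cases hqB : (q : ℤ) ∣ B
    · have hqa : ¬ (q : ℤ) ∣ a := fun h => sola_cop P hq hqB h
      by_cases hq3 : q = 3
      · subst hq3
        obtain ⟨B', hB'⟩ := hqB
        have hB3 : B = 3 * B' := by exact_mod_cast hB'
        have e1 : (3 * a ^ 8 - 12 * a ^ 4 * B ^ 4 - 4 * B ^ 8 : ℤ) =
            3 * (a ^ 8 - 4 * a ^ 4 * B ^ 4 - 4 * B' * B ^ 7) := by
          have : 4 * B ^ 8 = 4 * (3 * B') * B ^ 7 := by rw [← hB3]; ring
          rw [this]; ring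
        rw [e1]
        have e2 : (((3 * (a ^ 8 + 12 * a ^ 4 * B ^ 4 - 12 * B ^ 8) : ℤ) : ℚ) /
            ((3 * (a ^ 8 - 4 * a ^ 4 * B ^ 4 - 4 * B' * B ^ 7) : ℤ) : ℚ)) =
            (((a ^ 8 + 12 * a ^ 4 * B ^ 4 - 12 * B ^ 8) : ℤ) : ℚ) /
            (((a ^ 8 - 4 * a ^ 4 * B ^ 4 - 4 * B' * B ^ 7) : ℤ) : ℚ) := by
          rw [Int.cast_mul, Int.cast_mul]
          exact mul_div_mul_left _ _ (by norm_num)
        rw [e2]
        apply sola_den
        intro h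
        apply hqa
        apply sola_pow Nat.prime_three 8
        have e3 : a ^ 8 = (a ^ 8 - 4 * a ^ 4 * B ^ 4 - 4 * B' * B ^ 7) +
            3 * (B' * (4 * a ^ 4 * B ^ 3 + 4 * B' * B ^ 6)) := by
          have e4 : a ^ 8 - 4 * a ^ 4 * B ^ 4 - 4 * B' * B ^ 7 =
            a ^ 8 - 4 * a ^ 4 * B ^ 3 * B - 4 * B' * B ^ 6 * B := by ring
          rw [e4]
          have e5 : 4 * a ^ 4 * B ^ 3 * B = 4 * a ^ 4 * B ^ 3 * (3 * B') := by rw [← hB3]
          have e6 : 4 * B' * B ^ 6 * B = 4 * B' * B ^ 6 * (3 * B') := by rw [← hB3]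
          rw [e5, e6]; ring
        rw [e3]
        exact dvd_add h (Dvd.intro _ rfl)
      · apply sola_den
        intro h
        apply hqa
        have h3 : (q : ℤ) ∣ 3 * a ^ 8 := by
          have e : 3 * a ^ 8 = (3 * a ^ 8 - 12 * a ^ 4 * B ^ 4 - 4 * B ^ 8) +
            B * (12 * a ^ 4 * B ^ 3 + 4 * B ^ 7) := by ring
          rw [e]
          exact dvd_add h (Dvd.dvd.mul_right hqB _)
        rcases sola_mul hq h3 with h4 | h4
        · exact absurd (sola_three hq h4) hq3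
        · exact sola_pow hq 8 h4
    · rcases hc with hc | hc
      · exact absurd hc hqB
      · exact sola_den _ _ q (sola_w3 P ha hq hqB hc.2)

end BQ60
end

section

/-!
# MP_afa64c_lc: solutions whose denominators avoid a finite set of primes

`eventually_ok`: if `inK q (6^M G)` for some `M` take it as `M0` (multiples: `inK_zsmul`). Otherwise `inK q (2 (6^M G))` or
`inK q (3 (6^M G))` would imply `inK q (6^(M+1) G)` (`inK_zsmul`): so none of them ever happens; `M0 = 0`.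

`sol_avoid`: take the maximum of the `M0` of the primes in `s`, `P = 6^M G` (`P.u ≠ 0` by `u_pow_ne M M`, as `6^M = 2^M * 3^M`), and apply
`sol_exists`; the coordinates of index `< 6` are integers.
-/

set_option autoImplicit false

namespace BQ60

open Pt

theorem eventually_ok (q : ℕ) (hq : q.Prime) : ∃ M0 : ℕ, ∀ M : ℕ, M0 ≤ M →
    (inK q (((6 ^ M : ℕ) : ℤ) • G) ∨
      (¬ inK q (((6 ^ M : ℕ) : ℤ) • G + ((6 ^ M : ℕ) : ℤ) • G) ∧
        ¬ inK q (((6 ^ M : ℕ) : ℤ) • G + ((6 ^ M : ℕ) : ℤ) • G + ((6 ^ M : ℕ) : ℤ) • G))) := by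
  by_cases h : ∃ M0 : ℕ, inK q (((6 ^ M0 : ℕ) : ℤ) • G)
  · obtain ⟨M0, h0⟩ := h
    refine ⟨M0, fun M hM => Or.inl ?_⟩
    obtain ⟨k, rfl⟩ := Nat.exists_eq_add_of_le hM
    have := inK_zsmul q hq _ h0 ((6 ^ k : ℕ) : ℤ)
    rw [smul_smul] at this
    have e : ((6 ^ k : ℕ) : ℤ) * ((6 ^ M0 : ℕ) : ℤ) = ((6 ^ (M0 + k) : ℕ) : ℤ) := by
      push_cast
      ring
    rwa [e] at this
  · push Not at h
    refine ⟨0, fun M _ => Or.inr ⟨fun h2 => h (M + 1) ?_, fun h3 => h (M + 1) ?_⟩⟩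
    · have := inK_zsmul q hq _ h2 3
      rw [← two_zsmul, smul_smul, smul_smul] at this
      have e : (3 : ℤ) * 2 * ((6 ^ M : ℕ) : ℤ) = ((6 ^ (M + 1) : ℕ) : ℤ) := by
        push_cast
        ring
      rwa [e] at this
    · have := inK_zsmul q hq _ h3 2
      have e3 : ((6 ^ M : ℕ) : ℤ) • G + ((6 ^ M : ℕ) : ℤ) • G + ((6 ^ M : ℕ) : ℤ) • G =
          (3 : ℤ) • (((6 ^ M : ℕ) : ℤ) • G) := by
        rw [show (3 : ℤ) = 1 + 1 + 1 by norm_num, add_smul, add_smul, one_smul]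
      rw [e3, smul_smul, smul_smul] at this
      have e : (2 : ℤ) * 3 * ((6 ^ M : ℕ) : ℤ) = ((6 ^ (M + 1) : ℕ) : ℤ) := by
        push_cast
        ring
      rwa [e] at this

/-- for every finite set of primes there is a solution whose denominators avoid it -/
theorem sol_avoid (s : Finset ℕ) (hs : ∀ q ∈ s, q.Prime) : ∃ (x : Fin 8 → ℚ),
    Sys x (1 + x 2 ^ 2 + x 3 ^ 2 + x 4 ^ 2 + x 5 ^ 2) ∧
    ∀ q ∈ s, ∀ i : Fin 8, ¬ q ∣ (x i).den := by
  have h1 : ∀ q : ℕ, ∃ M0 : ℕ, q ∈ s → ∀ M : ℕ, M0 ≤ M →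
    (inK q (((6 ^ M : ℕ) : ℤ) • G) ∨
      (¬ inK q (((6 ^ M : ℕ) : ℤ) • G + ((6 ^ M : ℕ) : ℤ) • G) ∧
        ¬ inK q (((6 ^ M : ℕ) : ℤ) • G + ((6 ^ M : ℕ) : ℤ) • G + ((6 ^ M : ℕ) : ℤ) • G))) := by
    intro q
    by_cases hqs : q ∈ s
    · obtain ⟨M0, h⟩ := eventually_ok q (hs q hqs)
      exact ⟨M0, fun _ => h⟩
    · exact ⟨0, fun h => absurd h hqs⟩
  choose M0 hM0 using h1
  let M := s.sup M0
  have hu : (((6 ^ M : ℕ) : ℤ) • G).u ≠ 0 := by
    have := u_pow_ne M M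
    rwa [← mul_pow] at this
  obtain ⟨x, hx, hint, hden⟩ := sol_exists _ hu
  refine ⟨x, hx, ?_⟩
  intro q hq i
  have hp := hs q hq
  have hM : M0 q ≤ M := Finset.le_sup hq
  obtain ⟨h6, h7⟩ := hden q hp (hM0 q hq M hM)
  by_cases hi : i.val < 6
  · rw [hint i hi]
    exact hp.one_lt.ne' ∘ Nat.dvd_one.1
  · have : i = 6 ∨ i = 7 := by
      have := i.isLt
      rcases Nat.lt_or_ge i.val 7 with h | h
      · left; ext; simp; omega
      · right; ext; simp; omega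
    rcases this with rfl | rfl
    · exact h6
    · exact h7

end BQ60
end

section

/-!
# MP_afa64c_lc: denominators forced by a solution

Proof. `B > 0`, and `a = x 0` is not 0 since `a ^ 4 = 2 B ^ 4 + b ^ 2 > 0`. `L = (B / a, b / a ^ 2)` is a point of the curve, `L.u ≠ 0`.
By `mw`, `L = n G` or `n G + T`, and `n ≠ 0`. Write `|n| = 2 ^ e * 3 ^ f * k` with `k` prime to 6
(`e = padicValInt 2 n`, `f = padicValInt 3 n`). Dividing `h2` by `a ^ 4`: `w_2 * L.v = 1 + 2 L.u ^ 4`, and with `dbl_u`: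
`w_2 * (L + L).u = 2 * L.u`. Dividing `h3` by `a ^ 8`: `w_3 (3 - 12 u^4 - 4 u^8) = 3 (1 + 12 u^4 - 12 u^8)`, and with `tpl_u`
(`Phi_pos`): `w_3 * (L + L + L).u = 3 * L.u`.
Let `Ord q (2^(e+1) 3^j)`, `j ≤ f`. Then `q ≠ 2` (`not_ord_two`), `inK q (2 n G)`, so `inK q (L + L)` (`inK_add_iff`, `inK_T`); not `inK q (n G)`,
so not `inK q L`. So `padicNorm q (L+L).u < 1`, `1 ≤ padicNorm q L.u = padicNorm q (2 L.u)`, hence `1 < padicNorm q w_2`
(`(L+L).u ≠ 0` because `w_2 (L+L).u = 2 L.u ≠ 0`), i.e. `q ∣ w_2.den` (`Rat` version of `dvd_den_iff_norm`).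
Let `Ord q (2^(i+1) 3^(f+1))`, `i < e`. Then `q ≠ 3` (`not_ord_three`), `2^(i+1) 3^(f+1)` divides `3 n` and not `n`; the same argument
with `w_3` (`padicNorm q 3 = 1`) gives `q ∣ w_3.den`.
-/

set_option autoImplicit false

namespace BQ60

open Pt

private lemma forced_mul {q : ℕ} (hq : q.Prime) {x y : ℤ} (h : (q : ℤ) ∣ x * y) :
    (q : ℤ) ∣ x ∨ (q : ℤ) ∣ y :=
  (Nat.prime_iff_prime_int.1 hq).dvd_or_dvd h

/-- a denominator forced by a product formula -/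
private lemma forced_aux {q : ℕ} (hq : q.Prime) (c : ℤ) (hc : ¬ (q : ℤ) ∣ c) (w y u : ℚ)
    (h : w * y = c * u) (hy : (q : ℤ) ∣ y.num) (hu : ¬ (q : ℤ) ∣ u.num) : q ∣ w.den := by
  by_contra hw
  have hw' : ¬ (q : ℤ) ∣ (w.den : ℤ) := fun h' => hw (by exact_mod_cast h')
  have hwd : (w.den : ℚ) ≠ 0 := by exact_mod_cast w.den_nz
  have hyd : (y.den : ℚ) ≠ 0 := by exact_mod_cast y.den_nz
  have hud : (u.den : ℚ) ≠ 0 := by exact_mod_cast u.den_nz
  have e1 : (w.num : ℚ) * y.num * u.den = c * u.num * w.den * y.den := by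
    have a1 : (w.num : ℚ) = w * w.den := (Rat.mul_den_eq_num w).symm
    have a2 : (y.num : ℚ) = y * y.den := (Rat.mul_den_eq_num y).symm
    have a3 : (u.num : ℚ) = u * u.den := (Rat.mul_den_eq_num u).symm
    rw [a1, a2, a3]
    linear_combination (w.den * y.den * u.den : ℚ) * h
  have e2 : w.num * y.num * (u.den : ℤ) = c * u.num * (w.den : ℤ) * (y.den : ℤ) := by
    exact_mod_cast e1
  have h1 : (q : ℤ) ∣ c * u.num * (w.den : ℤ) * (y.den : ℤ) := by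
    rw [← e2]
    exact Dvd.dvd.mul_right (Dvd.dvd.mul_left hy _) _
  rcases forced_mul hq h1 with h2 | h2
  · rcases forced_mul hq h2 with h3 | h3
    · rcases forced_mul hq h3 with h4 | h4
      · exact hc h4
      · exact hu h4
    · exact hw' h3
  · have h3 : q ∣ y.num.natAbs := Int.natCast_dvd.1 hy
    have h4 : q ∣ y.den := by exact_mod_cast h2
    have h5 : q ∣ 1 := by
      have := Nat.dvd_gcd h3 h4
      rwa [y.reduced] at this
    exact hq.one_lt.ne' (Nat.dvd_one.1 h5)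

private lemma forced_two {q : ℕ} (hq : q.Prime) (h2 : q ≠ 2) : ¬ (q : ℤ) ∣ 2 := by
  intro h
  have h' : q ∣ 2 := by exact_mod_cast h
  exact h2 ((Nat.prime_dvd_prime_iff_eq hq Nat.prime_two).1 h')

private lemma forced_three {q : ℕ} (hq : q.Prime) (h2 : q ≠ 3) : ¬ (q : ℤ) ∣ 3 := by
  intro h
  have h' : q ∣ 3 := by exact_mod_cast h
  exact h2 ((Nat.prime_dvd_prime_iff_eq hq Nat.prime_three).1 h')

private lemma forced_cop (i j : ℕ) : IsCoprime ((2 : ℤ) ^ i) ((3 : ℤ) ^ j) := by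
  apply IsCoprime.pow
  exact ⟨-1, 1, by norm_num⟩

theorem forced (x : Fin 8 → ℚ)
    (hx : Sys x (1 + x 2 ^ 2 + x 3 ^ 2 + x 4 ^ 2 + x 5 ^ 2)) :
    ∃ e f : ℕ, (∀ j ≤ f, ∀ q : ℕ, q.Prime → Ord q (2 ^ (e + 1) * 3 ^ j) → q ∣ (x 6).den) ∧
      (∀ i < e, ∀ q : ℕ, q.Prime → Ord q (2 ^ (i + 1) * 3 ^ (f + 1)) → q ∣ (x 7).den) := by
  set B : ℚ := 1 + x 2 ^ 2 + x 3 ^ 2 + x 4 ^ 2 + x 5 ^ 2 with hBdef
  have hB : 0 < B := by rw [hBdef]; positivity
  have ha4 : 0 < x 0 ^ 4 := by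
    have h := hx.h1
    have h1 : 0 ≤ x 1 ^ 2 := sq_nonneg _
    have h2 : 0 < B ^ 4 := by positivity
    linarith
  have ha : x 0 ≠ 0 := by
    intro h0
    rw [h0] at ha4
    norm_num at ha4
  have hL : (x 1 / x 0 ^ 2) ^ 2 = 1 - 2 * (B / x 0) ^ 4 := by
    have h := hx.h1
    rw [div_pow, div_pow, ← h]
    field_simp
  obtain ⟨L, hLu, hLv⟩ : ∃ L : Pt, L.u = B / x 0 ∧ L.v = x 1 / x 0 ^ 2 :=
    ⟨⟨B / x 0, x 1 / x 0 ^ 2, hL⟩, rfl, rfl⟩
  have hu0 : L.u ≠ 0 := by rw [hLu]; exact div_ne_zero hB.ne' ha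
  -- the two product formulas
  have hw2 : x 6 * (L + L).u = ((2 : ℤ) : ℚ) * L.u := by
    have h := hx.h2
    have hv : x 6 * L.v = 1 + 2 * L.u ^ 4 := by
      rw [hLu, hLv]
      have h' : x 6 * (x 1 / x 0 ^ 2) = x 6 * (x 0 ^ 2 * x 1) / x 0 ^ 4 := by
        field_simp
      rw [h', h]
      field_simp
    have hD : (1 + 2 * L.u ^ 4) ≠ 0 := by positivity
    rw [dbl_u]
    rw [mul_div_assoc', div_eq_iff hD]
    push_cast
    linear_combination (2 * L.u) * hv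
  have hw3 : x 7 * (L + L + L).u = ((3 : ℤ) : ℚ) * L.u := by
    have h := hx.h3
    have hv : x 7 * (3 - 12 * L.u ^ 4 - 4 * L.u ^ 8) = 3 * (1 + 12 * L.u ^ 4 - 12 * L.u ^ 8) := by
      rw [hLu]
      have h' : x 7 * (3 - 12 * (B / x 0) ^ 4 - 4 * (B / x 0) ^ 8) =
          x 7 * (3 * x 0 ^ 8 - 12 * x 0 ^ 4 * B ^ 4 - 4 * B ^ 8) / x 0 ^ 8 := by
        field_simp
      rw [h', h]
      field_simp
    have hPhi := Phi_pos L
    have hD : (1 + 12 * L.u ^ 4 - 12 * L.u ^ 8) ≠ 0 := by linarith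
    rw [tpl_u]
    rw [mul_div_assoc', div_eq_iff hD]
    push_cast
    linear_combination (L.u) * hv
  obtain ⟨n, hn⟩ := mw L
  have hn0 : n ≠ 0 := by
    rintro rfl
    apply hu0
    rcases hn with h | h
    · rw [h, zero_smul]; rfl
    · rw [h, zero_smul, zero_add]; rfl
  have hTT := T_add_T
  have k1 : ∀ q : ℕ, q.Prime → (inK q L ↔ inK q (n • G)) := by
    intro q hq
    rcases hn with h | h
    · rw [h]
    · rw [h]; exact inK_add_iff q hq _ _ (inK_T q)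
  have k2 : ∀ q : ℕ, q.Prime → (inK q (L + L) ↔ inK q ((2 * n) • G)) := by
    intro q hq
    have e : L + L = (2 * n) • G := by
      rcases hn with h | h
      · rw [h, two_mul, add_smul]
      · rw [h, two_mul, add_smul]
        calc n • G + T + (n • G + T) = n • G + n • G + (T + T) := by abel
          _ = n • G + n • G := by rw [hTT, add_zero]
    rw [e]
  have k3 : ∀ q : ℕ, q.Prime → (inK q (L + L + L) ↔ inK q ((3 * n) • G)) := by
    intro q hq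
    have e3 : (3 * n) • G = n • G + n • G + n • G := by
      rw [show 3 * n = n + n + n by ring, add_smul, add_smul]
    rcases hn with h | h
    · rw [h, e3]
    · have e : L + L + L = (3 * n) • G + T := by
        rw [h, e3]
        calc n • G + T + (n • G + T) + (n • G + T)
            = n • G + n • G + n • G + (T + T) + T := by abel
          _ = n • G + n • G + n • G + T := by rw [hTT, add_zero]
      rw [e]
      exact inK_add_iff q hq _ _ (inK_T q)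
  have p2 : ∀ k : ℕ, (2 : ℤ) ^ k ∣ n ↔ k ≤ padicValInt 2 n := by
    intro k
    have h := padicValInt_dvd_iff (p := 2) k n
    simpa [hn0] using h
  have p3 : ∀ k : ℕ, (3 : ℤ) ^ k ∣ n ↔ k ≤ padicValInt 3 n := by
    intro k
    have h := padicValInt_dvd_iff (p := 3) k n
    simpa [hn0] using h
  refine ⟨padicValInt 2 n, padicValInt 3 n, ?_, ?_⟩
  · intro j hj q hq hord
    have hq2 : q ≠ 2 := by
      rintro rfl
      refine not_ord_two _ ?_ hord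
      intro h1
      have : 1 < 2 ^ (padicValInt 2 n + 1) * 3 ^ j :=
        lt_of_lt_of_le (Nat.one_lt_two_pow (by omega)) (Nat.le_mul_of_pos_right _ (by positivity))
      omega
    refine forced_aux hq 2 (forced_two hq hq2) (x 6) (L + L).u L.u hw2 ?_ ?_
    · have h1 : inK q (L + L) := by
        rw [k2 q hq, hord]
        push_cast
        refine (forced_cop _ _).mul_dvd ?_ ?_
        · rw [pow_succ, mul_comm]
          exact mul_dvd_mul_left 2 ((p2 _).2 le_rfl)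
        · exact Dvd.dvd.mul_left ((p3 j).2 hj) _
      exact h1
    · have h1 : ¬ inK q L := by
        rw [k1 q hq, hord]
        push_cast
        intro h
        have h2 : (2 : ℤ) ^ (padicValInt 2 n + 1) ∣ n := (Dvd.intro _ rfl).trans h
        have := (p2 _).1 h2
        omega
      exact h1
  · intro i hi q hq hord
    have hq3 : q ≠ 3 := by
      rintro rfl
      exact not_ord_three _ (Dvd.dvd.mul_left (dvd_pow_self 3 (by omega)) _) hord
    refine forced_aux hq 3 (forced_three hq hq3) (x 7) (L + L + L).u L.u hw3 ?_ ?_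
    · have h1 : inK q (L + L + L) := by
        rw [k3 q hq, hord]
        push_cast
        refine (forced_cop _ _).mul_dvd ?_ ?_
        · exact Dvd.dvd.mul_left ((p2 (i + 1)).2 (by omega)) _
        · rw [pow_succ, mul_comm]
          exact mul_dvd_mul_left 3 ((p3 _).2 le_rfl)
      exact h1
    · have h1 : ¬ inK q L := by
        rw [k1 q hq, hord]
        push_cast
        intro h
        have h2 : (3 : ℤ) ^ (padicValInt 3 n + 1) ∣ n := (Dvd.intro_left _ rfl).trans h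
        have := (p3 _).1 h2
        omega
      exact h1

end BQ60
end

section

/-!
# MP_afa64c_lc: the boundary set has positive measure
-/

set_option autoImplicit false

namespace BQ60

/-- the set of subrings in which the polynomial has a zero -/
def solv : Set (ℕ → Bool) := {W : ℕ → Bool | ∃ x : Fin 8 → ℚ,
  (∀ i : Fin 8, ∀ k : ℕ, Nat.nth Nat.Prime k ∣ (x i).den → W k = true) ∧
  MvPolynomial.aeval x poly = 0}

lemma two_three_inj (i j i' j' : ℕ) (h : 2 ^ (i + 1) * 3 ^ j = 2 ^ (i' + 1) * 3 ^ j') :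
    i = i' ∧ j = j' := by
  have h2 : (2 ^ (i + 1) * 3 ^ j).factorization = (2 ^ (i' + 1) * 3 ^ j').factorization := by
    rw [h]
  have f2 : ∀ a b : ℕ, (2 ^ a * 3 ^ b).factorization 2 = a := by
    intro a b
    rw [Nat.factorization_mul (by positivity) (by positivity), Nat.factorization_pow,
      Nat.factorization_pow, Nat.Prime.factorization Nat.prime_two,
      Nat.Prime.factorization Nat.prime_three]
    simp
  have f3 : ∀ a b : ℕ, (2 ^ a * 3 ^ b).factorization 3 = b := by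
    intro a b
    rw [Nat.factorization_mul (by positivity) (by positivity), Nat.factorization_pow,
      Nat.factorization_pow, Nat.Prime.factorization Nat.prime_two,
      Nat.Prime.factorization Nat.prime_three]
    simp
  have a1 := f2 (i + 1) j
  have a2 := f2 (i' + 1) j'
  have b1 := f3 (i + 1) j
  have b2 := f3 (i' + 1) j'
  rw [h] at a1 b1
  constructor
  · omega
  · omega

/-- every neighbourhood of a point with cofinite changes contains a solvable subring -/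
lemma mem_closure_solv (W : ℕ → Bool) : W ∈ closure solv := by
  rw [mem_closure_iff]
  intro o ho hWo
  rw [isOpen_pi_iff] at ho
  obtain ⟨I, u, hu, hsub⟩ := ho W hWo
  classical
  let W' : ℕ → Bool := fun k => if k ∈ I then W k else true
  refine ⟨W', hsub ?_, ?_⟩
  · intro k hk
    have hk' : k ∈ I := hk
    have : W' k = W k := by simp only [W', if_pos hk']
    rw [this]
    exact (hu k hk').2
  · let s : Finset ℕ := (I.filter (fun k => W k = false)).image (Nat.nth Nat.Prime)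
    have hs : ∀ q ∈ s, q.Prime := by
      intro q hq
      obtain ⟨k, -, rfl⟩ := Finset.mem_image.1 hq
      exact Nat.prime_nth_prime k
    obtain ⟨x, hx, hx'⟩ := sol_avoid s hs
    refine ⟨x, ?_, (aeval_poly x).2 hx⟩
    intro i k hk
    by_contra hne
    have h1 : W' k = false := by simpa using hne
    have hkI : k ∈ I := by
      by_contra h
      simp only [W', if_neg h] at h1
      exact absurd h1 (by decide)
    simp only [W', if_pos hkI] at h1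
    exact hx' _ (Finset.mem_image.2 ⟨k, Finset.mem_filter.2 ⟨hkI, h1⟩, rfl⟩) i hk

/-- a good `W` is not solvable -/
lemma not_mem_solv (q : ℕ → ℕ → ℕ) (hq : ∀ i j, (q i j).Prime)
    (hord : ∀ i j, Ord (q i j) (2 ^ (i + 1) * 3 ^ j)) (k : ℕ → ℕ → ℕ)
    (hk : ∀ i j, Nat.nth Nat.Prime (k i j) = q i j) (W : ℕ → Bool)
    (hW : W (k 0 0) = false ∧ W (k 1 0) = false ∧
      ∀ e f : ℕ, 2 ≤ e → (∃ j ≤ f, W (k e j) = false) ∨ (∃ i < e, W (k i (f + 1)) = false)) :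
    W ∉ solv := by
  rintro ⟨x, hx, hx0⟩
  obtain ⟨e, f, h2, h3⟩ := forced x ((aeval_poly x).1 hx0)
  have g2 : ∀ j ≤ f, W (k e j) = true := by
    intro j hj
    apply hx 6 (k e j)
    rw [hk]
    exact h2 j hj _ (hq e j) (hord e j)
  have g3 : ∀ i < e, W (k i (f + 1)) = true := by
    intro i hi
    apply hx 7 (k i (f + 1))
    rw [hk]
    exact h3 i hi _ (hq i (f + 1)) (hord i (f + 1))
  obtain ⟨w0, w1, w2⟩ := hW
  rcases Nat.lt_or_ge e 2 with he | he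
  · interval_cases e
    · have := g2 0 (Nat.zero_le _)
      rw [w0] at this
      exact absurd this (by decide)
    · have := g2 0 (Nat.zero_le _)
      rw [w1] at this
      exact absurd this (by decide)
  · rcases w2 e f he with ⟨j, hj, h⟩ | ⟨i, hi, h⟩
    · rw [g2 j hj] at h
      exact absurd h (by decide)
    · rw [g3 i hi] at h
      exact absurd h (by decide)

theorem main : ∃ n : ℕ, ∃ f : MvPolynomial (Fin n) ℤ,
      0 < (MeasureTheory.Measure.infinitePi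
            (fun _ : ℕ => (PMF.uniformOfFintype Bool).toMeasure))
          (frontier ({W : ℕ → Bool | ∃ x : Fin n → ℚ,
              (∀ i : Fin n, ∀ k : ℕ, Nat.nth Nat.Prime k ∣ (x i).den → W k = true) ∧
              MvPolynomial.aeval x f = 0}ᶜ)) := by
  refine ⟨8, poly, ?_⟩
  choose q hq hord using exists_prim
  have hk : ∀ i j, Nat.nth Nat.Prime (Nat.count Nat.Prime (q i j)) = q i j :=
    fun i j => Nat.nth_count (hq i j)
  have hinj : ∀ i j i' j', Nat.count Nat.Prime (q i j) = Nat.count Nat.Prime (q i' j') →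
      i = i' ∧ j = j' := by
    intro i j i' j' h
    have h1 : q i j = q i' j' := by rw [← hk i j, ← hk i' j', h]
    have h2 := hord i' j'
    rw [← h1] at h2
    exact two_three_inj i j i' j' ((hord i j).unique h2)
  refine lt_of_lt_of_le (meas_pos (fun i j => Nat.count Nat.Prime (q i j)) hinj)
    (MeasureTheory.measure_mono ?_)
  intro W hW
  have h1 : W ∉ solv := not_mem_solv q hq hord (fun i j => Nat.count Nat.Prime (q i j)) hk W hW
  change W ∈ frontier solvᶜ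
  rw [frontier_compl]
  exact ⟨mem_closure_solv W, fun h => h1 (interior_subset h)⟩

end BQ60
end
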